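import Pool.Agent.Q227.AK.A13

/-!
# Base change built from twists
-/

set_option autoImplicit false

namespace Pool.Agent.Q227.AG

open NumberField IsDedekindDomain Finset
open Pool.Agent.W401.Cheb Pool.Agent.Q227.AK Pool.Agent.Q227.AK.AutRep

variable {K : Type} [Field K] [NumberField K] {𝕜 : Type} [Field 𝕜] [IsAlgClosed 𝕜]

/-- the part of `Known` about `K` -/
structure Half (T : AutRep K 𝕜) : Prop where
  deg_pos : ∀ x, 0 < T.deg x
  card_par : ∀ x v M, T.par x v = some M → Multiset.card M = T.deg x ∧ 0 ∉ M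
  finite_ram : ∀ x, {v | T.par x v = none}.Finite
  mult_one : ∀ F F' : T.X →₀ ℕ, {v | T.sat F v ≠ T.sat F' v}.Finite → F = F'
  tw_mul : ∀ χ χ' : GK K →* 𝕜ˣ, IsOpen (χ.ker : Set (GK K)) → IsOpen (χ'.ker : Set (GK K)) →
    ∀ x, T.tw (χ * χ') x = T.tw χ (T.tw χ' x)
  tw_par : ∀ χ : GK K →* 𝕜ˣ, IsOpen (χ.ker : Set (GK K)) → ∀ v a, Val v χ a → ∀ x,
    T.par (T.tw χ x) v = (T.par x v).map (sc a)

variable {T : AutRep K 𝕜}

theorem Half.sat_twF (hT : Half T) {χ : GK K →* 𝕜ˣ} (hχ : IsOpen (χ.ker : Set (GK K)))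
    {v : HeightOneSpectrum (𝓞 K)} {a : 𝕜ˣ} (h : Val v χ a) (F : T.X →₀ ℕ) :
    T.sat (twF χ F) v = (T.sat F v).map (sc a) := by
  induction F using Finsupp.induction_linear with
  | zero =>
    unfold twF
    rw [Finsupp.mapDomain_zero, sat_zero, Option.map_some, sc_zero]
  | add F F' hF hF' =>
    unfold twF at hF hF' ⊢
    rw [Finsupp.mapDomain_add, sat_add, hF, hF', sat_add]
    cases T.sat F v with
    | none => simp
    | some M =>
      cases T.sat F' v with
      | none => simp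
      | some M' => simp [sc_add]
  | single x n =>
    unfold twF
    rw [Finsupp.mapDomain_single]
    by_cases hn : n = 0
    · rw [hn, Finsupp.single_zero, Finsupp.single_zero, sat_zero, Option.map_some, sc_zero]
    · rw [sat_single _ hn, sat_single _ hn, hT.tw_par χ hχ v a h]
      cases T.par x v with
      | none => simp
      | some M => simp [sc_nsmul]

theorem Half.sat_NF (hT : Half T) {χ : GK K →* 𝕜ˣ} (hχ : IsOpen (χ.ker : Set (GK K)))
    (hp : 0 < orderOf χ) {v : HeightOneSpectrum (𝓞 K)} {a : 𝕜ˣ} (h : Val v χ a) (F : T.X →₀ ℕ) :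
    T.sat (NF χ F) v = (T.sat F v).map (sm a (orderOf χ)) := by
  have key : ∀ m : ℕ, T.sat (∑ k ∈ range (m + 1), twF ((χ ^ k)⁻¹) F) v
      = (T.sat F v).map (sm a (m + 1)) := by
    intro m
    have h1 : ∀ k, T.sat (twF ((χ ^ k)⁻¹) F) v = (T.sat F v).map (sc ((a ^ k)⁻¹)) := fun k =>
      hT.sat_twF (open_inv (open_pow hχ k)) (h.pow k).inv F
    induction m with
    | zero =>
      rw [Finset.sum_range_one, h1]
      congr 1
      funext M
      unfold sm
      rw [Finset.sum_range_one]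
    | succ m ih =>
      rw [Finset.sum_range_succ, sat_add, ih, h1]
      cases T.sat F v with
      | none => simp
      | some M =>
        rw [Option.map_some, Option.map_some, Option.map_some, Option.map₂_some_some]
        unfold sm
        rw [Finset.sum_range_succ (fun k => sc ((a ^ k)⁻¹) M) (m + 1)]
  obtain ⟨m, hm⟩ : ∃ m, orderOf χ = m + 1 := ⟨orderOf χ - 1, by omega⟩
  unfold NF
  rw [hm]
  exact key m

theorem Half.sat_card (hT : Half T) {F : T.X →₀ ℕ} {v : HeightOneSpectrum (𝓞 K)} {M : Multiset 𝕜}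
    (h : T.sat F v = some M) : Multiset.card M = T.rk F := by
  obtain ⟨h1, h2⟩ := sat_eq_some.1 h
  rw [← h2]
  unfold rk
  rw [Finsupp.sum, Multiset.card_sum, Finsupp.sum]
  refine Finset.sum_congr rfl fun x hx => ?_
  obtain ⟨M, hM⟩ := Option.ne_none_iff_exists'.1 (h1 x hx)
  rw [Multiset.card_nsmul, hM, Option.getD_some, (hT.card_par x v M hM).1]

/-- there is a place outside a finite set -/
theorem exists_place {S : Set (HeightOneSpectrum (𝓞 K))} (hS : S.Finite) : ∃ v, v ∉ S := by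
  obtain ⟨σ, v, hv, -⟩ := (Pool.Agent.Q15.GR.frob_dense S hS).nonempty
  exact ⟨v, hv⟩

/-- representations are unramified almost everywhere -/
theorem Half.finite_none (hT : Half T) (F : T.X →₀ ℕ) : {v | T.sat F v = none}.Finite := by
  refine (F.support.finite_toSet.biUnion fun x _ => hT.finite_ram x).subset ?_
  intro v hv
  obtain ⟨x, hx, hx'⟩ := sat_eq_none.1 hv
  exact Set.mem_biUnion hx hx'

/-- equality of the sums of twists, locally -/
theorem Half.NF_iff (hT : Half T) {χ : GK K →* 𝕜ˣ} (hχ : IsCyc χ) {F F' : T.X →₀ ℕ}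
    (h : NF χ F = NF χ F') {v : HeightOneSpectrum (𝓞 K)} {a : 𝕜ˣ} (ha : Val v χ a) :
    (T.sat F v).map (pw (orderOf a)) = (T.sat F' v).map (pw (orderOf a)) := by
  refine (opt_iff hχ.2 ha.pow_orderOf _ _).1 ?_
  rw [← hT.sat_NF hχ.1 hχ.2.pos ha, ← hT.sat_NF hχ.1 hχ.2.pos ha, h]

theorem Half.NF_of (hT : Half T) {χ : GK K →* 𝕜ˣ} (hχ : IsCyc χ) {F F' : T.X →₀ ℕ}
    (h : {v | ∃ a, Val v χ a ∧ (T.sat F v).map (pw (orderOf a)) ≠
      (T.sat F' v).map (pw (orderOf a))}.Finite) : NF χ F = NF χ F' := by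
  apply hT.mult_one
  refine ((ram_finite hχ.1).union h).subset ?_
  intro v hv
  by_contra hcon
  rw [Set.mem_union, not_or, Set.mem_setOf_eq, Set.mem_setOf_eq, not_not] at hcon
  obtain ⟨⟨a, ha⟩, h2⟩ := hcon
  push Not at h2
  apply hv
  rw [hT.sat_NF hχ.1 hχ.2.pos ha, hT.sat_NF hχ.1 hχ.2.pos ha]
  exact (opt_iff hχ.2 ha.pow_orderOf _ _).2 (h2 a ha)

theorem Half.rk_of_NF (hT : Half T) {χ : GK K →* 𝕜ˣ} (hχ : IsCyc χ) {F F' : T.X →₀ ℕ}
    (h : NF χ F = NF χ F') : T.rk F = T.rk F' := by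
  obtain ⟨v, hv⟩ := exists_place (((ram_finite hχ.1).union (hT.finite_none F)).union
    (hT.finite_none F'))
  rw [Set.mem_union, Set.mem_union, not_or, not_or, Set.mem_setOf_eq, Set.mem_setOf_eq,
    Set.mem_setOf_eq, not_not] at hv
  obtain ⟨⟨⟨a, ha⟩, h1⟩, h2⟩ := hv
  obtain ⟨M, hM⟩ := Option.ne_none_iff_exists'.1 h1
  obtain ⟨M', hM'⟩ := Option.ne_none_iff_exists'.1 h2
  have h3 := hT.NF_iff hχ h ha
  rw [hM, hM', Option.map_some, Option.map_some, Option.some_inj] at h3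
  rw [← hT.sat_card hM, ← hT.sat_card hM', ← card_pw (orderOf a) M, h3, card_pw]

variable (T) in
/-- the theory with base change built from twists -/
noncomputable def up : AutRep K 𝕜 where
  X := T.X
  deg := T.deg
  par := T.par
  tw := T.tw
  Y χ := {G : T.X →₀ ℕ // ∃ F : T.X →₀ ℕ, NF χ F = G}
  degE χ y := T.rk y.2.choose
  parE χ y v := by
    classical
    exact if h : ∃ a, Val v χ a then (T.sat y.2.choose v).map (pw (orderOf h.choose)) else none
  bc χ F := ⟨NF χ F, F, rfl⟩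

theorem up_rk (F : T.X →₀ ℕ) : (up T).rk F = T.rk F := rfl

theorem up_sat (F : T.X →₀ ℕ) (v : HeightOneSpectrum (𝓞 K)) : (up T).sat F v = T.sat F v := rfl

theorem up_bc_iff (χ : GK K →* 𝕜ˣ) (F F' : T.X →₀ ℕ) :
    (up T).bc χ F = (up T).bc χ F' ↔ NF (T := T) χ F = NF (T := T) χ F' := Subtype.ext_iff

theorem up_parE {χ : GK K →* 𝕜ˣ} (y : (up T).Y χ) {v : HeightOneSpectrum (𝓞 K)} {a : 𝕜ˣ}
    (ha : Val v χ a) : (up T).parE χ y v = (T.sat y.2.choose v).map (pw (orderOf a)) := by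
  classical
  have h : ∃ a, Val v χ a := ⟨a, ha⟩
  have h1 : (up T).parE χ y v = (T.sat y.2.choose v).map (pw (orderOf h.choose)) := dif_pos h
  rw [h1, h.choose_spec.unique ha]

theorem up_known (hT : Half T) : (up T).Known where
  deg_pos := hT.deg_pos
  card_par := hT.card_par
  finite_ram := hT.finite_ram
  mult_one F F' h := hT.mult_one F F' h
  tw_mul := hT.tw_mul
  tw_par := hT.tw_par
  mult_oneE χ hχ y y' h := by
    apply Subtype.ext
    rw [← y.2.choose_spec, ← y'.2.choose_spec]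
    apply hT.NF_of hχ
    refine h.subset ?_
    rintro v ⟨a, ha, h1⟩
    refine ⟨⟨a, ha⟩, ?_⟩
    rwa [up_parE y ha, up_parE y' ha]
  bc_rk χ hχ F := by
    have h1 : ∃ F' : T.X →₀ ℕ, NF χ F' = NF χ F := ⟨F, rfl⟩
    exact hT.rk_of_NF hχ h1.choose_spec
  bc_par χ hχ v a ha F := by
    rw [up_parE _ ha]
    have h1 : ∃ F' : T.X →₀ ℕ, NF χ F' = NF χ F := ⟨F, rfl⟩
    exact hT.NF_iff hχ h1.choose_spec ha
  bc_surj χ _ y := ⟨y.2.choose, Subtype.ext y.2.choose_spec⟩

end Pool.Agent.Q227.AG
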