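import Pool.Agent.Q227.AG.G9

/-!
# Patching of Galois representations along cyclic extensions of different prime degrees: summary
-/

set_option autoImplicit false

namespace Pool.Agent.Q227.AG

open NumberField IsDedekindDomain
open Pool.Agent.W401.Cheb Pool.Agent.Q227.AK
open Pool.Agent.Q15.GR Representation Module

variable {K : Type} [Field K] [NumberField K] {𝕜 : Type} [Field 𝕜]

/-- `R` is semisimple and its restrictions to the absolute Galois groups of the extensions in `I`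
are the `ρ χ` -/
def Patches {n : ℕ} (I : Finset (GK K →* 𝕜ˣ))
    (ρ : ∀ χ : GK K →* 𝕜ˣ, Representation 𝕜 χ.ker (Fin n → 𝕜))
    (R : Representation 𝕜 (GK K) (Fin n → 𝕜)) : Prop :=
  R.IsSemisimpleRepresentation ∧ ∀ χ ∈ I, Nonempty (Representation.Equiv (res χ.ker R) (ρ χ))

variable [CharZero 𝕜] [IsAlgClosed 𝕜]

theorem splAt_of {n : ℕ} {χ : GK K →* 𝕜ˣ} {ρ : Representation 𝕜 χ.ker (Fin n → 𝕜)}
    {v : HeightOneSpectrum (𝓞 K)} {M : Multiset 𝕜} (h : Spl v χ → At ρ v M) : SplAt ρ v M :=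
  fun hs => (h hs).spl hs

/-- local information with two extensions -/
theorem two_local {n : ℕ} {I : Finset (GK K →* 𝕜ˣ)} (hI : PrimeDegs I) (h2 : I.card = 2)
    {ρ : ∀ χ : GK K →* 𝕜ˣ, Representation 𝕜 χ.ker (Fin n → 𝕜)}
    {R : Representation 𝕜 (GK K) (Fin n → 𝕜)} (hR : Patches I ρ R)
    {v : HeightOneSpectrum (𝓞 K)} {M : Multiset 𝕜} (hv : ∀ χ ∈ I, At (ρ χ) v M)
    (hM : (∀ x ∈ M, ∀ y ∈ M, ¬ IsPrimitiveRoot (x / y) (∏ χ ∈ I, orderOf χ)) ∨
      ∃ L : IntermediateField ℚ 𝕜, FiniteDimensional ℚ L ∧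
        Module.finrank ℚ L * n ^ 2 < ∏ χ ∈ I, (orderOf χ - 1) ∧
        ∀ k, ((M.map fun a => Polynomial.X - Polynomial.C a).prod).coeff k ∈ L) :
    URat R v M := by
  classical
  obtain ⟨ψ, η, hψη, rfl⟩ := Finset.card_eq_two.1 h2
  have hψI : ψ ∈ ({ψ, η} : Finset (GK K →* 𝕜ˣ)) := Finset.mem_insert_self _ _
  have hηI : η ∈ ({ψ, η} : Finset (GK K →* 𝕜ˣ)) :=
    Finset.mem_insert_of_mem (Finset.mem_singleton_self _)
  have hψ := hI.1 ψ hψI
  have hη := hI.1 η hηI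
  have hne : orderOf ψ ≠ orderOf η := fun e => hψη (hI.2 hψI hηI e)
  obtain ⟨e⟩ := hR.2 ψ hψI
  obtain ⟨e'⟩ := hR.2 η hηI
  have e1 : ∏ χ ∈ ({ψ, η} : Finset (GK K →* 𝕜ˣ)), orderOf χ = orderOf ψ * orderOf η :=
    Finset.prod_pair hψη
  have e2 : ∏ χ ∈ ({ψ, η} : Finset (GK K →* 𝕜ˣ)), (orderOf χ - 1)
      = (orderOf ψ - 1) * (orderOf η - 1) := Finset.prod_pair hψη
  rw [e1, e2] at hM
  refine urat_two hψ hη hne e e' (hv ψ hψI) (hv η hηI) ?_
  rcases hM with h | ⟨L, hL, hlt, hco⟩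
  · exact h
  · intro x hx y hy
    haveI := hL
    have hcard : Multiset.card M = n := by
      obtain ⟨h1, h3⟩ := at_pow e (hv ψ hψI)
      have h4 := h3 (fr v) (fr_spec v)
      have h5 : Multiset.card (R (fr v)⁻¹).charpoly.roots = n := by
        have := card_eig (R (fr v)⁻¹)
        rwa [finrank_fin_fun] at this
      rw [← card_pw (orderOf (ψ (fr v))), ← h4, card_pw, h5]
    refine root_ratio L hcard hco (Nat.mul_pos hψ.2.pos hη.2.pos) ?_ hx hy
    rw [Nat.totient_mul ((Nat.coprime_primes hψ.2 hη.2).2 hne), Nat.totient_prime hψ.2,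
      Nat.totient_prime hη.2]
    exact hlt

variable [TopologicalSpace 𝕜] [IsTopologicalRing 𝕜] [T2Space 𝕜]

/-- the exact threshold for uniqueness -/
theorem unique_iff {I : Finset (GK K →* 𝕜ˣ)} (hI : PrimeDegs I) (hne : I.Nonempty) (n : ℕ) :
    2 * n < 2 ^ I.card ↔ ∀ R R' : Representation 𝕜 (GK K) (Fin n → 𝕜),
      R.IsSemisimpleRepresentation → Cts R → Cts R' → Patches I (fun χ => res χ.ker R) R' →
        Nonempty (Representation.Equiv R' R) := by
  constructor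
  · intro h R R' hR _ _ hR'
    exact uniq hI h hR hR'.1 hR'.2
  · intro h
    by_contra hcon
    obtain ⟨R, R', ⟨h1, h1', h2, h2', -, -⟩, h3, h4⟩ := not_unique hI hne (not_lt.1 hcon)
    exact h4 (h R' R h1' h2' h2 ⟨h1, h3⟩)

end Pool.Agent.Q227.AG
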