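import Pool.Agent.Q15.GRG3

/-!
# Constituents and eigenvalues of semisimple representations
-/

set_option autoImplicit false

namespace Pool.Agent.Q227.AG

open Pool.Agent.Q15.GR Pool.Agent.Q15.GRG Representation Module

section

variable {Γ : Type} [Group Γ] {k : Type} [Field k]

/-- equivalent representations are trivial at the same elements -/
theorem one_of_equiv {V W : Type} [AddCommGroup V] [Module k V] [AddCommGroup W] [Module k W]
    {ρ : Representation k Γ V} {σ : Representation k Γ W}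
    (e : Representation.Equiv ρ σ) {g : Γ} (h : σ g = 1) : ρ g = 1 := by
  refine LinearMap.ext fun x => ?_
  apply e.toLinearEquiv.injective
  have h6 : e (ρ g x) = σ g (e x) := IntertwiningMap.isIntertwining _ _ e.toIntertwiningMap g x
  rw [h] at h6
  exact h6

variable [CharZero k] [IsAlgClosed k]

theorem emb {n : ℕ} {R : Representation k Γ (Fin n → k)} (hR : R.IsSemisimpleRepresentation)
    {F : X k Γ →₀ ℕ} (hF : R.character = Ph F) {x : X k Γ} (hx : F x ≠ 0) :
    ∃ φ : (Fin (dm x) → k) →ₗ[k] (Fin n → k), Function.Injective φ ∧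
      ∀ g u, φ (rp x g u) = R g (φ u) := by
  obtain ⟨m, hm, h2⟩ := exists_mult R hR
  have hmF : m = F := Ph_inj (hm.symm.trans hF)
  subst hmF
  obtain ⟨φ, hφ⟩ := h2 x hx
  haveI := rp_irr x
  refine ⟨φ.toLinearMap, (IsIrreducible.injective_or_eq_zero φ).resolve_right hφ, fun g u => ?_⟩
  exact IntertwiningMap.isIntertwining _ _ φ g u

/-- the eigenvalues of an irreducible representation -/
noncomputable def ei (x : X k Γ) (g : Γ) : Multiset k := eig (rp x g)

/-- the eigenvalues of the representation with given multiplicities -/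
noncomputable def es (F : X k Γ →₀ ℕ) (g : Γ) : Multiset k :=
  F.sum fun x (a : ℕ) => a • ei x g

theorem es_zero (g : Γ) : es (0 : X k Γ →₀ ℕ) g = 0 := Finsupp.sum_zero_index

theorem es_add (F F' : X k Γ →₀ ℕ) (g : Γ) : es (F + F') g = es F g + es F' g :=
  Finsupp.sum_add_index' (fun _ => zero_smul ℕ _) (fun _ _ _ => add_smul _ _ _)

theorem es_single (x : X k Γ) (a : ℕ) (g : Γ) :
    es (Finsupp.single x a) g = a • ei x g :=
  Finsupp.sum_single_index (zero_smul ℕ _)

/-- multiplicities and eigenvalues -/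
def HasEig (F : X k Γ →₀ ℕ) : Prop :=
  ∃ (n : ℕ) (R : Representation k Γ (Fin n → k)), R.IsSemisimpleRepresentation ∧
    R.character = Ph F ∧ (∀ g, eig (R g) = es F g) ∧
      ∀ g, (∀ x, F x ≠ 0 → rp x g = 1) → R g = 1

theorem hasEig_zero : HasEig (0 : X k Γ →₀ ℕ) := by
  obtain ⟨n, ρ, h1, h2⟩ := isSs_zero (k := k) (G := Γ)
  have h3 := congrFun h2 1
  rw [char_one, finrank_fin_fun, Pi.zero_apply] at h3
  have h4 : n = 0 := by exact_mod_cast h3
  subst h4
  refine ⟨0, ρ, h1, by rw [h2, map_zero], fun g => ?_, fun g _ => ?_⟩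
  · rw [es_zero, ← Multiset.card_eq_zero, card_eig, finrank_fin_fun]
  · exact Subsingleton.elim _ _

theorem hasEig_add {F F' : X k Γ →₀ ℕ} (h : HasEig F) (h' : HasEig F') : HasEig (F + F') := by
  obtain ⟨n, R, h1, h2, h3, h5⟩ := h
  obtain ⟨n', R', h1', h2', h3', h5'⟩ := h'
  refine ⟨finrank k ((Fin n → k) × (Fin n' → k)), tp (R.prod R') (Module.finBasis k _).equivFun,
    semi_congr (tpEquiv _ _) (semi_prod h1 h1'), ?_, fun g => ?_, fun g hg => ?_⟩
  · rw [char_tp, char_prod, h2, h2', map_add]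
  · rw [eig_equiv (tpEquiv (R.prod R') (Module.finBasis k _).equivFun) g]
    have h4 : (R.prod R') g = (R g).prodMap (R' g) := rfl
    rw [h4, eig_prod, h3, h3', es_add]
  · have h6 : R g = 1 := h5 g fun x hx => hg x (by
      rw [Finsupp.add_apply]
      omega)
    have h6' : R' g = 1 := h5' g fun x hx => hg x (by
      rw [Finsupp.add_apply]
      omega)
    have h7 : (R.prod R') g = 1 := by
      have h4 : (R.prod R') g = (R g).prodMap (R' g) := rfl
      rw [h4, h6, h6']
      exact LinearMap.ext fun u => rfl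
    refine LinearMap.ext fun u => ?_
    change (Module.finBasis k _).equivFun ((R.prod R') g ((Module.finBasis k _).equivFun.symm u)) = u
    rw [h7, Module.End.one_apply, LinearEquiv.apply_symm_apply]

theorem hasEig (F : X k Γ →₀ ℕ) : HasEig F := by
  induction F using Finsupp.induction_linear with
  | zero => exact hasEig_zero
  | add F F' h h' => exact hasEig_add h h'
  | single x a =>
    induction a with
    | zero =>
      rw [Finsupp.single_zero]
      exact hasEig_zero
    | succ a ih =>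
      rw [Finsupp.single_add]
      refine hasEig_add ih ⟨dm x, rp x, irr_semi (rp_irr x), ?_, fun g => ?_, fun g hg => ?_⟩
      · rw [rp_char, Ph_single, one_smul]
      · rw [es_single, one_smul]
        rfl
      · exact hg x (by
          rw [Finsupp.single_eq_same]
          exact one_ne_zero)

/-- the eigenvalues of a semisimple representation -/
theorem eig_Ph {n : ℕ} {R : Representation k Γ (Fin n → k)} (hR : R.IsSemisimpleRepresentation)
    {F : X k Γ →₀ ℕ} (hF : R.character = Ph F) (g : Γ) :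
    eig (R g) = es F g := by
  obtain ⟨n', R', h1, h2, h3, -⟩ := hasEig F
  obtain ⟨e⟩ := equiv_of_char R R' hR h1 (hF.trans h2.symm)
  rw [← h3]
  exact (eig_equiv e g).symm

/-- the twist -/
theorem smul_equiv (χ : Γ →* kˣ) (x : X k Γ) :
    Nonempty (Representation.Equiv (rp (χ • x)) (twist χ (rp x))) := by
  apply equiv_of_irr _ _ (rp_irr _) (irr_twist χ (rp_irr x))
  rw [rp_char]
  funext g
  rw [char_twist, rp_char, X_smul]

theorem dm_smul' (χ : Γ →* kˣ) (x : X k Γ) : dm (χ • x) = dm x := by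
  have h1 := X_one (χ • x)
  rw [X_smul, map_one, Units.val_one, one_mul, X_one] at h1
  exact_mod_cast h1.symm

end

/-- conjugation -/
theorem eig_conj {Γ : Type} [Group Γ] {k : Type} [Field k] [IsAlgClosed k] {V : Type}
    [AddCommGroup V] [Module k V] [FiniteDimensional k V] (ρ : Representation k Γ V) (g h : Γ) :
    eig (ρ (g * h * g⁻¹)) = eig (ρ h) := by
  have e1 : ρ g ∘ₗ ρ g⁻¹ = LinearMap.id := by
    rw [← Module.End.mul_eq_comp, ← map_mul, mul_inv_cancel, map_one]
    rfl
  have e2 : ρ g⁻¹ ∘ₗ ρ g = LinearMap.id := by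
    rw [← Module.End.mul_eq_comp, ← map_mul, inv_mul_cancel, map_one]
    rfl
  let e : V ≃ₗ[k] V := LinearEquiv.ofLinear (ρ g) (ρ g⁻¹) e1 e2
  have h1 : e.conj (ρ h) = ρ (g * h * g⁻¹) := by
    rw [map_mul, map_mul]
    rfl
  unfold eig
  rw [← h1, LinearEquiv.charpoly_conj]

section cts

variable {Γ : Type} [Group Γ] [TopologicalSpace Γ] [IsTopologicalGroup Γ] {k : Type} [Field k]
  [CharZero k] [IsAlgClosed k] [TopologicalSpace k] [IsTopologicalRing k] [T2Space k]

/-- the constituents of a continuous representation are continuous -/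
theorem cts_const {n : ℕ} {R : Representation k Γ (Fin n → k)} (hR : R.IsSemisimpleRepresentation)
    (hc : Cts R) {F : X k Γ →₀ ℕ} (hF : R.character = Ph F) {x : X k Γ} (hx : F x ≠ 0) :
    Cts (rp x) := by
  obtain ⟨φ, hφ, h1⟩ := emb hR hF hx
  obtain ⟨ψ, hψ⟩ := φ.exists_leftInverse_of_injective (LinearMap.ker_eq_bot.2 hφ)
  intro u
  have h2 : ∀ g, rp x g u = ψ (R g (φ u)) := by
    intro g
    rw [← h1]
    exact (LinearMap.congr_fun hψ (rp x g u)).symm
  simp_rw [h2]
  exact (lin_cont ψ).comp (hc _)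

theorem one_const {n : ℕ} {R : Representation k Γ (Fin n → k)}
    (hR : R.IsSemisimpleRepresentation) {F : X k Γ →₀ ℕ} (hF : R.character = Ph F) {x : X k Γ}
    (hx : F x ≠ 0) {g : Γ} (hg : R g = 1) : rp x g = 1 := by
  obtain ⟨φ, hφ, h1⟩ := emb hR hF hx
  refine LinearMap.ext fun u => hφ ?_
  rw [h1, hg]
  rfl

/-- conversely -/
theorem one_of_const {n : ℕ} {R : Representation k Γ (Fin n → k)}
    (hR : R.IsSemisimpleRepresentation) {F : X k Γ →₀ ℕ} (hF : R.character = Ph F) {g : Γ}
    (h : ∀ x, F x ≠ 0 → rp x g = 1) : R g = 1 := by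
  obtain ⟨n', R', h1, h2, -, h3⟩ := hasEig F
  obtain ⟨e⟩ := equiv_of_char R R' hR h1 (hF.trans h2.symm)
  exact one_of_equiv e (h3 g h)

theorem cts_twist {χ : Γ →* kˣ} (hχ : IsOpen (χ.ker : Set Γ)) {n : ℕ}
    {ρ : Representation k Γ (Fin n → k)} (h : Cts ρ) : Cts (twist χ ρ) := by
  intro u
  change Continuous fun g => (χ g : k) • ρ g u
  refine Continuous.smul (f := fun g => (χ g : k)) (g := fun g => ρ g u) ?_ (h u)
  have h1 : IsLocallyConstant (fun g : Γ => (χ g : k)) := by
    rw [IsLocallyConstant.iff_exists_open]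
    intro g
    refine ⟨(fun x => g⁻¹ * x) ⁻¹' (χ.ker : Set Γ), hχ.preimage (continuous_const_mul g⁻¹), ?_, ?_⟩
    · change g⁻¹ * g ∈ χ.ker
      rw [inv_mul_cancel]
      exact Subgroup.one_mem _
    · intro x hx
      have h2 : χ (g⁻¹ * x) = 1 := hx
      rw [map_mul, map_inv, inv_mul_eq_one] at h2
      rw [h2]
  exact h1.continuous

end cts

end Pool.Agent.Q227.AG
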