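import Pool.Agent.Q227.AG.G1
import Pool.Agent.Q227.AG.G2

/-!
# The theory of Galois representations
-/

set_option autoImplicit false

namespace Pool.Agent.Q227.AG

open NumberField IsDedekindDomain
open Pool.Agent.W401.Cheb Pool.Agent.Q227.AK Pool.Agent.Q227.AK.AutRep
open Pool.Agent.Q15.GR Representation Module

open scoped Classical in
/-- a Frobenius automorphism -/
noncomputable def fr {K : Type} [Field K] [NumberField K] (v : HeightOneSpectrum (𝓞 K)) : GK K :=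
  ((Pool.Agent.W401.Frob.main K).1 v).choose

theorem fr_spec {K : Type} [Field K] [NumberField K] (v : HeightOneSpectrum (𝓞 K)) :
    IsFrob v (fr v) := ((Pool.Agent.W401.Frob.main K).1 v).choose_spec

variable {K : Type} [Field K] [NumberField K] {𝕜 : Type} [Field 𝕜]

/-- unramified -/
def Un (x : X 𝕜 (GK K)) (v : HeightOneSpectrum (𝓞 K)) : Prop := ∀ σ, IsInert v σ → rp x σ = 1

variable [CharZero 𝕜] [IsAlgClosed 𝕜]

theorem un_smul_aux {χ : GK K →* 𝕜ˣ} {v : HeightOneSpectrum (𝓞 K)}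
    (hχ : ∀ σ, IsInert v σ → χ σ = 1) {x : X 𝕜 (GK K)} (h : Un x v) : Un (χ • x) v := by
  obtain ⟨e⟩ := smul_equiv χ x
  intro σ hσ
  refine one_of_equiv e ?_
  rw [twist_apply, hχ σ hσ, h σ hσ, Units.val_one, one_smul]

theorem un_smul {χ : GK K →* 𝕜ˣ} {v : HeightOneSpectrum (𝓞 K)}
    (hχ : ∀ σ, IsInert v σ → χ σ = 1) (x : X 𝕜 (GK K)) : Un (χ • x) v ↔ Un x v := by
  refine ⟨fun h => ?_, un_smul_aux hχ⟩
  have h1 := un_smul_aux (χ := χ⁻¹) (fun σ hσ => by
    rw [MonoidHom.inv_apply, hχ σ hσ, inv_one]) h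
  rwa [← X_mul_smul, show χ⁻¹ * χ = 1 from inv_mul_cancel χ, X_one_smul] at h1

/-- eigenvalues at Frobenius elements -/
theorem eig_frob {V : Type} [AddCommGroup V] [Module 𝕜 V] [FiniteDimensional 𝕜 V]
    {ρ : Representation 𝕜 (GK K) V} {v : HeightOneSpectrum (𝓞 K)}
    (h : ∀ σ, IsInert v σ → ρ σ = 1) {σ τ : GK K} (hσ : IsFrob v σ) (hτ : IsFrob v τ) :
    eig (ρ σ⁻¹) = eig (ρ τ⁻¹) := by
  obtain ⟨g, i, hi, rfl⟩ := (Pool.Agent.W401.Frob.main K).2.1 v τ σ hτ hσ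
  have h1 : ρ i⁻¹ = 1 := by
    have h2 : ρ i⁻¹ * ρ i = 1 := by rw [← map_mul, inv_mul_cancel, map_one]
    rwa [h i hi, mul_one] at h2
  have h2 : ρ (g * τ * g⁻¹ * i)⁻¹ = ρ (g * τ⁻¹ * g⁻¹) := by
    have h3 : (g * τ * g⁻¹ * i)⁻¹ = i⁻¹ * (g * τ⁻¹ * g⁻¹) := by group
    rw [h3, map_mul, h1, one_mul]
  rw [h2, eig_conj]

variable [TopologicalSpace 𝕜] [IsTopologicalRing 𝕜] [T2Space 𝕜]

/-- continuous and almost everywhere unramified -/
def Good (x : X 𝕜 (GK K)) : Prop := Cts (rp x) ∧ {v | ¬ Un x v}.Finite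

theorem good_smul {χ : GK K →* 𝕜ˣ} (hχ : IsOpen (χ.ker : Set (GK K))) {x : X 𝕜 (GK K)}
    (h : Good x) : Good (χ • x) := by
  refine ⟨?_, ?_⟩
  · obtain ⟨e⟩ := smul_equiv χ x
    exact cts_equiv e (cts_twist hχ h.1)
  · refine ((ram_finite hχ).union h.2).subset ?_
    intro v hv
    by_contra hcon
    rw [Set.mem_union, not_or, Set.mem_setOf_eq, Set.mem_setOf_eq, not_not, not_not] at hcon
    obtain ⟨⟨a, ha⟩, h2⟩ := hcon
    exact hv (un_smul_aux ha.1 h2)

variable (K 𝕜) in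
open scoped Classical in
/-- the theory over `K` -/
noncomputable def GT : AutRep K 𝕜 where
  X := {x : X 𝕜 (GK K) // Good x}
  deg x := dm x.1
  par x v := if Un x.1 v then some (eig (rp x.1 (fr v)⁻¹)) else none
  tw χ x := if h : IsOpen (χ.ker : Set (GK K)) then ⟨χ⁻¹ • x.1, good_smul (open_inv h) x.2⟩ else x
  Y _ := Unit
  degE _ _ := 0
  parE _ _ _ := none
  bc _ _ := ()

theorem GT_tw {χ : GK K →* 𝕜ˣ} (h : IsOpen (χ.ker : Set (GK K))) (x : (GT K 𝕜).X) :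
    ((GT K 𝕜).tw χ x).1 = χ⁻¹ • x.1 := by
  have h1 : (GT K 𝕜).tw χ x = ⟨χ⁻¹ • x.1, good_smul (open_inv h) x.2⟩ := dif_pos h
  rw [h1]

theorem GT_par_pos {x : (GT K 𝕜).X} {v : HeightOneSpectrum (𝓞 K)} (h : Un x.1 v) :
    (GT K 𝕜).par x v = some (eig (rp x.1 (fr v)⁻¹)) := if_pos h

theorem GT_par_neg {x : (GT K 𝕜).X} {v : HeightOneSpectrum (𝓞 K)} (h : ¬ Un x.1 v) :
    (GT K 𝕜).par x v = none := if_neg h

/-- the character -/
def ct (x : (GT K 𝕜).X) : X 𝕜 (GK K) := Subtype.val x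

theorem ct_inj : Function.Injective (ct : (GT K 𝕜).X → X 𝕜 (GK K)) := Subtype.val_injective

/-- the multiplicities of all irreducible characters -/
noncomputable def toX (F : (GT K 𝕜).X →₀ ℕ) : X 𝕜 (GK K) →₀ ℕ := F.mapDomain ct

theorem toX_inj {F F' : (GT K 𝕜).X →₀ ℕ} (h : toX F = toX F') : F = F' :=
  Finsupp.mapDomain_injective ct_inj h

theorem toX_apply (F : (GT K 𝕜).X →₀ ℕ) (x : (GT K 𝕜).X) : toX F x.1 = F x :=
  Finsupp.mapDomain_apply ct_inj F x

theorem toX_supp {F : (GT K 𝕜).X →₀ ℕ} {x : X 𝕜 (GK K)} (h : toX F x ≠ 0) :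
    ∃ y : (GT K 𝕜).X, y.1 = x ∧ F y ≠ 0 := by
  by_contra hcon
  push Not at hcon
  by_cases hx : Good x
  · have h1 := hcon ⟨x, hx⟩ rfl
    rw [← toX_apply] at h1
    exact h h1
  · refine h (Finsupp.mapDomain_notin_range F x ?_)
    rintro ⟨y, rfl⟩
    exact hx y.2

theorem Ph_es {Γ : Type} [Group Γ] (F : X 𝕜 Γ →₀ ℕ) (g : Γ) : Ph F g = (es F g).sum := by
  obtain ⟨n, R, h1, h2, h3, -⟩ := hasEig F
  rw [← h2, ← h3, sum_eig]
  rfl

theorem Ph_cts (F : (GT K 𝕜).X →₀ ℕ) : Continuous (Ph (toX F) : GK K → 𝕜) := by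
  induction F using Finsupp.induction_linear with
  | zero =>
    unfold toX
    rw [Finsupp.mapDomain_zero, map_zero]
    exact continuous_zero
  | add F F' h h' =>
    unfold toX at h h' ⊢
    rw [Finsupp.mapDomain_add, map_add]
    exact h.add h'
  | single x a =>
    unfold toX
    rw [Finsupp.mapDomain_single, Ph_single]
    have h1 : Continuous (x.1 : GK K → 𝕜) := by
      rw [← rp_char x.1]
      exact char_cont x.2.1
    exact h1.const_smul a

theorem es_toX (F : (GT K 𝕜).X →₀ ℕ) (g : GK K) :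
    es (toX F) g = F.sum fun x (a : ℕ) => a • ei (ct x) g := by
  unfold es toX
  exact Finsupp.sum_mapDomain_index (h := fun x (a : ℕ) => a • ei x g)
    (fun _ => zero_smul ℕ _) (fun _ _ _ => add_smul _ _ _)

theorem par_frob {x : (GT K 𝕜).X} {v : HeightOneSpectrum (𝓞 K)} (h : (GT K 𝕜).par x v ≠ none)
    {σ : GK K} (hσ : IsFrob v σ) : ((GT K 𝕜).par x v).getD 0 = ei (ct x) σ⁻¹ := by
  have h3 : Un x.1 v := by
    by_contra h4
    exact h (GT_par_neg h4)
  rw [GT_par_pos h3, Option.getD_some, eig_frob h3 (fr_spec v) hσ]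
  rfl

/-- the parameters are the eigenvalues of the geometric Frobenius -/
theorem es_frob {F : (GT K 𝕜).X →₀ ℕ} {v : HeightOneSpectrum (𝓞 K)} {M : Multiset 𝕜}
    (h : (GT K 𝕜).sat F v = some M) {σ : GK K} (hσ : IsFrob v σ) : es (toX F) σ⁻¹ = M := by
  obtain ⟨h1, h2⟩ := sat_eq_some.1 h
  rw [← h2, es_toX]
  refine Finset.sum_congr rfl fun x hx => ?_
  exact congrArg (F x • ·) (par_frob (h1 x hx) hσ).symm

/-- unramified at `v` -/
theorem sat_un {F : (GT K 𝕜).X →₀ ℕ} {v : HeightOneSpectrum (𝓞 K)} :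
    (GT K 𝕜).sat F v ≠ none ↔ ∀ x, F x ≠ 0 → Un x.1 v := by
  rw [Ne, sat_eq_none]
  push Not
  constructor
  · intro h x hx
    by_contra h4
    exact h x (Finsupp.mem_support_iff.2 hx) (GT_par_neg h4)
  · intro h x hx
    rw [GT_par_pos (h x (Finsupp.mem_support_iff.1 hx))]
    simp

theorem sat_frob {F : (GT K 𝕜).X →₀ ℕ} {v : HeightOneSpectrum (𝓞 K)}
    (h : ∀ x, F x ≠ 0 → Un x.1 v) {σ : GK K} (hσ : IsFrob v σ) :
    (GT K 𝕜).sat F v = some (es (toX F) σ⁻¹) := by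
  obtain ⟨M, hM⟩ := Option.ne_none_iff_exists'.1 (sat_un.2 h)
  rw [es_frob hM hσ, hM]

theorem half : Half (GT K 𝕜) where
  deg_pos x := dm_pos x.1
  card_par x v M h := by
    by_cases h1 : Un x.1 v
    · rw [GT_par_pos h1, Option.some_inj] at h
      subst h
      refine ⟨?_, eig_rep_ne _ _⟩
      rw [card_eig, finrank_fin_fun]
      rfl
    · rw [GT_par_neg h1] at h
      exact absurd h (by simp)
  finite_ram x := by
    refine x.2.2.subset ?_
    intro v hv h1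
    rw [Set.mem_setOf_eq, GT_par_pos h1] at hv
    exact absurd hv (by simp)
  mult_one F F' h := by
    apply toX_inj
    apply Ph_inj
    have hF : {v | (GT K 𝕜).sat F v = none}.Finite := by
      refine (F.support.finite_toSet.biUnion fun x _ => x.2.2).subset ?_
      intro v hv
      obtain ⟨x, hx, hx'⟩ := sat_eq_none.1 hv
      refine Set.mem_biUnion hx fun h1 => ?_
      rw [GT_par_pos h1] at hx'
      exact absurd hx' (by simp)
    have h1 := frob_dense (K := K) _ (h.union hF)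
    have h2 : Dense {σ : GK K | ∃ v ∉ ({v | (GT K 𝕜).sat F v ≠ (GT K 𝕜).sat F' v} ∪
        {v | (GT K 𝕜).sat F v = none}), IsFrob v σ⁻¹} :=
      h1.preimage (Homeomorph.inv (GK K)).isOpenMap
    refine Continuous.ext_on h2 (Ph_cts F) (Ph_cts F') ?_
    rintro σ ⟨v, hv, hσ⟩
    rw [Set.mem_union, not_or, Set.mem_setOf_eq, not_not, Set.mem_setOf_eq] at hv
    obtain ⟨M, hM⟩ := Option.ne_none_iff_exists'.1 hv.2
    have h3 := es_frob hM hσ
    have h4 := es_frob (hv.1.symm.trans hM) hσ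
    rw [inv_inv] at h3 h4
    rw [Ph_es, Ph_es, h3, h4]
  tw_mul χ χ' hχ hχ' x := by
    apply Subtype.ext
    rw [GT_tw (open_mul hχ hχ'), GT_tw hχ, GT_tw hχ', ← X_mul_smul]
    congr 1
    exact mul_inv χ χ'
  tw_par χ hχ v a ha x := by
    have h0 : ∀ σ, IsInert v σ → χ⁻¹ σ = 1 := fun σ hσ => by
      rw [MonoidHom.inv_apply, ha.1 σ hσ, inv_one]
    by_cases h1 : Un x.1 v
    · have h2 : Un ((GT K 𝕜).tw χ x).1 v := by
        rw [GT_tw hχ]
        exact (un_smul h0 _).2 h1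
      rw [GT_par_pos h1, GT_par_pos h2, Option.map_some, Option.some_inj, GT_tw hχ]
      obtain ⟨e⟩ := smul_equiv χ⁻¹ x.1
      rw [← eig_equiv e, twist_apply]
      have h3 : χ⁻¹ (fr v)⁻¹ = a := by
        rw [map_inv, MonoidHom.inv_apply, inv_inv]
        exact ha.2 _ (fr_spec v)
      rw [h3, eig_smul]
      unfold sc
      exact Multiset.map_congr rfl fun z _ => mul_comm _ _
    · have h2 : ¬ Un ((GT K 𝕜).tw χ x).1 v := by
        rw [GT_tw hχ]
        exact fun h => h1 ((un_smul h0 _).1 h)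
      rw [GT_par_neg h1, GT_par_neg h2, Option.map_none]

end Pool.Agent.Q227.AG
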