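import Pool.Agent.Q227.AG.G3
import Pool.Agent.Q227.CD.Orb

/-!
# Representations over cyclic extensions
-/

set_option autoImplicit false

namespace Pool.Agent.Q227.AG

open NumberField IsDedekindDomain
open Pool.Agent.W401.Cheb Pool.Agent.Q227.AK Pool.Agent.Q227.AK.AutRep
open Pool.Agent.Q15.GR Representation Module

variable {K : Type} [Field K] [NumberField K] {𝕜 : Type} [Field 𝕜]

/-- the place `v` splits completely in the extension of `χ` -/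
def Spl (v : HeightOneSpectrum (𝓞 K)) (χ : GK K →* 𝕜ˣ) : Prop :=
  ∀ σ, IsInert v σ ∨ IsFrob v σ → χ σ = 1

theorem spl_of_val {v : HeightOneSpectrum (𝓞 K)} {χ : GK K →* 𝕜ˣ} {a : 𝕜ˣ} (h : Val v χ a)
    {σ : GK K} (hσ : IsFrob v σ) (h1 : χ σ = 1) : Spl v χ := by
  have h2 : a = 1 := by rw [← h.2 σ hσ, h1]
  rintro τ (hτ | hτ)
  · exact h.1 τ hτ
  · rw [h.2 τ hτ, h2]

variable [CharZero 𝕜] [IsAlgClosed 𝕜]

/-- the extension of `χ` is unramified at `v`, `ρ` is unramified above `v`, and the eigenvalues of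
the geometric Frobenius elements above `v` are the powers of the elements of `M`, the exponent
being the residue degree -/
def At {n : ℕ} {χ : GK K →* 𝕜ˣ} (ρ : Representation 𝕜 χ.ker (Fin n → 𝕜))
    (v : HeightOneSpectrum (𝓞 K)) (M : Multiset 𝕜) : Prop :=
  (∀ σ, IsInert v σ → χ σ = 1) ∧ (∀ σ : χ.ker, IsInert v (σ : GK K) → ρ σ = 1) ∧
    ∀ τ, IsFrob v τ → ∀ σ : χ.ker, (σ : GK K) = τ ^ orderOf (χ τ) →
      (ρ σ⁻¹).charpoly.roots = M.map fun a => a ^ orderOf (χ τ)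

/-- at the places which split, the eigenvalues of the geometric Frobenius elements are `M` -/
def SplAt {n : ℕ} {χ : GK K →* 𝕜ˣ} (ρ : Representation 𝕜 χ.ker (Fin n → 𝕜))
    (v : HeightOneSpectrum (𝓞 K)) (M : Multiset 𝕜) : Prop :=
  Spl v χ → (∀ σ : χ.ker, IsInert v (σ : GK K) → ρ σ = 1) ∧
    ∀ σ : χ.ker, IsFrob v (σ : GK K) → (ρ σ⁻¹).charpoly.roots = M

theorem At.spl {n : ℕ} {χ : GK K →* 𝕜ˣ} {ρ : Representation 𝕜 χ.ker (Fin n → 𝕜)}
    {v : HeightOneSpectrum (𝓞 K)} {M : Multiset 𝕜} (h : At ρ v M) : SplAt ρ v M := by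
  intro hs
  refine ⟨h.2.1, fun σ hσ => ?_⟩
  have h1 : χ (σ : GK K) = 1 := hs _ (Or.inr hσ)
  have h2 := h.2.2 σ hσ σ (by rw [h1, orderOf_one, pow_one])
  rw [h2, h1, orderOf_one]
  conv_rhs => rw [← Multiset.map_id M]
  exact Multiset.map_congr rfl fun a _ => pow_one a

variable [TopologicalSpace 𝕜] [IsTopologicalRing 𝕜] [T2Space 𝕜]

/-- the characters over two extensions agree -/
theorem cons {n : ℕ} {D : HeightOneSpectrum (𝓞 K) → Multiset 𝕜}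
    {χ χ' : GK K →* 𝕜ˣ} (hχ : IsOpen (χ.ker : Set (GK K))) (hχ' : IsOpen (χ'.ker : Set (GK K)))
    {ρ : Representation 𝕜 χ.ker (Fin n → 𝕜)}
    {ρ' : Representation 𝕜 χ'.ker (Fin n → 𝕜)}
    (hc : Cts ρ) (hc' : Cts ρ') (hD : {v | ¬ SplAt ρ v (D v)}.Finite)
    (hD' : {v | ¬ SplAt ρ' v (D v)}.Finite)
    (g x y : GK K) (hy : y = g * x * g⁻¹) (hxk : x ∈ χ.ker) (hyk : y ∈ χ'.ker) :
    ρ.character ⟨x, hxk⟩ = ρ'.character ⟨y, hyk⟩ := by
  classical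
  subst hy
  let O : Set (GK K) := {x | x ∈ χ.ker ∧ g * x * g⁻¹ ∈ χ'.ker}
  have hO : IsOpen O := by
    refine hχ.inter ?_
    exact hχ'.preimage ((continuous_mul_const g⁻¹).comp (continuous_const_mul g))
  let A : Set (GK K) := {σ | ∃ v ∉ ({v | ¬ SplAt ρ v (D v)} ∪ {v | ¬ SplAt ρ' v (D v)}) ∪
    ({v | ¬ ∃ a, Val v χ a} ∪ {v | ¬ ∃ a, Val v χ' a}), IsFrob v σ⁻¹}
  have hA : Dense A := by
    have h1 := frob_dense (K := K) _ ((hD.union hD').union ((ram_finite hχ).union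
      (ram_finite hχ')))
    exact h1.preimage (Homeomorph.inv (GK K)).isOpenMap
  have hdense : Dense ((Subtype.val : O → GK K) ⁻¹' A) :=
    Dense.preimage hA hO.isOpenMap_subtype_val
  have ha : Continuous (fun y : O => ρ.character ⟨y.1, y.2.1⟩) :=
    (char_cont hc).comp (continuous_subtype_val.subtype_mk _)
  have hb : Continuous (fun y : O => ρ'.character ⟨g * y.1 * g⁻¹, y.2.2⟩) := by
    refine (char_cont hc').comp (Continuous.subtype_mk ?_ _)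
    exact ((continuous_mul_const g⁻¹).comp (continuous_const_mul g)).comp continuous_subtype_val
  have h3 := Continuous.ext_on hdense ha hb (by
    rintro ⟨y, hy, hy'⟩ ⟨v, hv, hvy⟩
    change ρ.character ⟨y, hy⟩ = ρ'.character ⟨g * y * g⁻¹, hy'⟩
    have hvy : IsFrob v y⁻¹ := hvy
    have h1 : Spl v χ := by
      obtain ⟨a, ha⟩ : ∃ a, Val v χ a := by_contra fun h => hv (Or.inr (Or.inl h))
      refine spl_of_val ha hvy ?_
      have h7 : χ y = 1 := hy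
      rw [map_inv, h7, inv_one]
    have hvy' : IsFrob v (g * y * g⁻¹)⁻¹ := by
      have h8 := isFrob_conj hvy g
      have h9 : g * y⁻¹ * g⁻¹ = (g * y * g⁻¹)⁻¹ := by group
      rwa [h9] at h8
    have h2 : Spl v χ' := by
      obtain ⟨a, ha⟩ : ∃ a, Val v χ' a := by_contra fun h => hv (Or.inr (Or.inr h))
      refine spl_of_val ha hvy' ?_
      have h7 : χ' (g * y * g⁻¹) = 1 := hy'
      rw [map_inv, h7, inv_one]
    have hvS : SplAt ρ v (D v) := by_contra fun h => hv (Or.inl (Or.inl h))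
    have hvS' : SplAt ρ' v (D v) := by_contra fun h => hv (Or.inl (Or.inr h))
    have h4 := (hvS h1).2 (⟨y, hy⟩ : χ.ker)⁻¹ hvy
    have h5 := (hvS' h2).2 (⟨g * y * g⁻¹, hy'⟩ : χ'.ker)⁻¹ hvy'
    rw [inv_inv] at h4 h5
    change LinearMap.trace _ _ (ρ ⟨y, hy⟩) = LinearMap.trace _ _ (ρ' ⟨g * y * g⁻¹, hy'⟩)
    rw [← sum_eig, ← sum_eig]
    unfold eig
    rw [h4, h5])
  exact congrFun h3 ⟨x, hxk, hyk⟩

theorem cyc_exists_ne {χ : GK K →* 𝕜ˣ} (h : IsCyc χ) : ∃ g, χ g ≠ 1 := by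
  by_contra hall
  push Not at hall
  have h1 : χ = 1 := MonoidHom.ext hall
  have h2 := h.2
  rw [h1, orderOf_one] at h2
  exact Nat.not_prime_one h2

theorem pow_val (χ : GK K →* 𝕜ˣ) (g : GK K) : χ g ^ orderOf χ = 1 := by
  have h1 : χ ^ orderOf χ = 1 := pow_orderOf_eq_one χ
  rw [← MonoidHom.pow_apply, h1, MonoidHom.one_apply]

/-- extension to `K` -/
theorem exists_ext {n : ℕ} {D : HeightOneSpectrum (𝓞 K) → Multiset 𝕜} {χ : GK K →* 𝕜ˣ}
    (hχ : IsCyc χ) {ρ : Representation 𝕜 χ.ker (Fin n → 𝕜)}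
    (hs : ρ.IsSemisimpleRepresentation) (hc : Cts ρ) (hD : {v | ¬ SplAt ρ v (D v)}.Finite) :
    ∃ (F : X 𝕜 (GK K) →₀ ℕ) (R : Representation 𝕜 (GK K) (Fin n → 𝕜)),
      R.IsSemisimpleRepresentation ∧ Cts R ∧ R.character = Ph F ∧
      (∀ h : χ.ker, Ph F (h : GK K) = ρ.character h) ∧ dg F = n ∧
      Nonempty (Representation.Equiv (res χ.ker R) ρ) := by
  obtain ⟨g₀, hg₀⟩ := cyc_exists_ne hχ
  have hcyc := cyc_ker χ hχ.2 (pow_val χ) g₀ hg₀
  haveI := hcyc.normal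
  obtain ⟨F, hF⟩ := ext_inv hcyc hχ.2 (isSs_char ρ hs) (fun h hh => by
    have h1 := cons hχ.1 hχ.1 hc hc hD hD g₀⁻¹ (h : GK K) (g₀⁻¹ * h * g₀) (by rw [inv_inv]) h.2 hh
    exact h1.symm)
  have hdg : dg F = n := by
    have h1 := hF 1
    rw [Subgroup.coe_one, Ph_one, char_one, finrank_fin_fun] at h1
    exact_mod_cast h1
  obtain ⟨R, hR, hRc⟩ := exists_rep F hdg
  have he : Nonempty (Representation.Equiv (res χ.ker R) ρ) := by
    refine equiv_of_char _ _ (semi_res χ.ker hR) hs ?_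
    funext x
    rw [res_char, hRc]
    exact hF x
  obtain ⟨e⟩ := he
  exact ⟨F, R, hR, cts_of_open R χ.ker hχ.1 (cts_equiv e hc), hRc, hF, hdg, ⟨e⟩⟩

/-- multiplicities of good characters -/
theorem exists_toX {m : X 𝕜 (GK K) →₀ ℕ} (h : ∀ x, m x ≠ 0 → Good x) :
    ∃ F : (GT K 𝕜).X →₀ ℕ, toX F = m := by
  refine ⟨Finsupp.comapDomain ct m ct_inj.injOn, ?_⟩
  unfold toX
  refine Finsupp.mapDomain_comapDomain ct ct_inj m ?_
  intro x hx
  exact ⟨⟨x, h x (Finsupp.mem_support_iff.1 hx)⟩, rfl⟩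

theorem rk_toX (F : (GT K 𝕜).X →₀ ℕ) : (GT K 𝕜).rk F = dg (toX F) := by
  unfold dg toX rk
  exact (Finsupp.sum_mapDomain_index (h := fun x (a : ℕ) => a * dm x)
    (fun _ => zero_mul _) (fun _ _ _ => add_mul _ _ _)).symm

/-- twists and characters -/
theorem Ph_twF {ψ : GK K →* 𝕜ˣ} (hψ : IsOpen (ψ.ker : Set (GK K))) (F : (GT K 𝕜).X →₀ ℕ)
    (g : GK K) : Ph (toX (twF ψ F)) g = ((ψ⁻¹ g : 𝕜ˣ) : 𝕜) * Ph (toX F) g := by
  unfold toX twF
  induction F using Finsupp.induction_linear with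
  | zero =>
    rw [Finsupp.mapDomain_zero, Finsupp.mapDomain_zero, map_zero, Pi.zero_apply, mul_zero]
  | add F F' h h' =>
    rw [Finsupp.mapDomain_add, Finsupp.mapDomain_add, Finsupp.mapDomain_add, map_add, map_add,
      Pi.add_apply, Pi.add_apply, h, h', mul_add]
  | single x a =>
    rw [Finsupp.mapDomain_single, Finsupp.mapDomain_single, Finsupp.mapDomain_single, Ph_single,
      Ph_single, Pi.smul_apply, Pi.smul_apply]
    have h1 : ct ((GT K 𝕜).tw ψ x) = ψ⁻¹ • ct x := GT_tw hψ x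
    rw [h1, X_smul, mul_smul_comm]

theorem Ph_NF {χ : GK K →* 𝕜ˣ} (hχ : IsOpen (χ.ker : Set (GK K))) (F : (GT K 𝕜).X →₀ ℕ)
    (g : GK K) : Ph (toX (NF χ F)) g =
      (∑ k ∈ Finset.range (orderOf χ), ((χ g : 𝕜ˣ) : 𝕜) ^ k) * Ph (toX F) g := by
  have key : ∀ s : Finset ℕ, Ph (toX (∑ k ∈ s, twF ((χ ^ k)⁻¹) F)) g =
      (∑ k ∈ s, ((χ g : 𝕜ˣ) : 𝕜) ^ k) * Ph (toX F) g := by
    intro s
    classical
    induction s using Finset.induction_on with
    | empty =>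
      rw [Finset.sum_empty, Finset.sum_empty, zero_mul]
      unfold toX
      rw [Finsupp.mapDomain_zero, map_zero]
      rfl
    | insert i s hi ih =>
      rw [Finset.sum_insert hi, Finset.sum_insert hi, add_mul, ← ih]
      have h1 : toX (twF ((χ ^ i)⁻¹) F + ∑ k ∈ s, twF ((χ ^ k)⁻¹) F) =
          toX (twF ((χ ^ i)⁻¹) F) + toX (∑ k ∈ s, twF ((χ ^ k)⁻¹) F) := Finsupp.mapDomain_add
      rw [h1, map_add, Pi.add_apply, Ph_twF (open_inv (open_pow hχ i))]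
      congr 2
  exact key _

theorem NF_Ph {χ : GK K →* 𝕜ˣ} (hχ : IsCyc χ) (F : (GT K 𝕜).X →₀ ℕ) (g : GK K) :
    (χ g = 1 → Ph (toX (NF χ F)) g = (orderOf χ : 𝕜) * Ph (toX F) g) ∧
      (χ g ≠ 1 → Ph (toX (NF χ F)) g = 0) := by
  rw [Ph_NF hχ.1]
  constructor
  · intro h
    rw [h, Units.val_one]
    simp
  · intro h
    have h1 : ((χ g : 𝕜ˣ) : 𝕜) ≠ 1 := fun e => h (Units.ext e)
    have h2 := geom_sum_mul ((χ g : 𝕜ˣ) : 𝕜) (orderOf χ)
    rw [← Units.val_pow_eq_pow_val, pow_val, Units.val_one, sub_self] at h2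
    rw [(mul_eq_zero.1 h2).resolve_right (sub_ne_zero.2 h1), zero_mul]

theorem NF_iff_Ph {χ : GK K →* 𝕜ˣ} (hχ : IsCyc χ) (F F' : (GT K 𝕜).X →₀ ℕ) :
    NF χ F = NF χ F' ↔ ∀ g, χ g = 1 → Ph (toX F) g = Ph (toX F') g := by
  have hp : (orderOf χ : 𝕜) ≠ 0 := by exact_mod_cast hχ.2.ne_zero
  constructor
  · intro h g hg
    have h1 := (NF_Ph hχ F g).1 hg
    rw [h, (NF_Ph hχ F' g).1 hg] at h1
    exact (mul_left_cancel₀ hp h1).symm
  · intro h
    apply toX_inj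
    apply Ph_inj
    funext g
    by_cases hg : χ g = 1
    · rw [(NF_Ph hχ F g).1 hg, (NF_Ph hχ F' g).1 hg, h g hg]
    · rw [(NF_Ph hχ F g).2 hg, (NF_Ph hχ F' g).2 hg]

end Pool.Agent.Q227.AG
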