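import Pool.Agent.Q227.AG.G4
import Pool.Agent.Q227.AR.T5

/-!
# Patching from the places which split
-/

set_option autoImplicit false

namespace Pool.Agent.Q227.AG

open NumberField IsDedekindDomain
open Pool.Agent.W401.Cheb Pool.Agent.Q227.AK
open Pool.Agent.Q15.GR Representation Module
open Pool.Agent.Q227.AR (nm Fam mass le_nm mass_pos pair)

open scoped ENNReal

variable {K : Type} [Field K] [NumberField K] {𝕜 : Type} [Field 𝕜] [CharZero 𝕜] [IsAlgClosed 𝕜]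

/-- the twist as a permutation -/
noncomputable def pr (χ : GK K →* 𝕜ˣ) : Equiv.Perm (X 𝕜 (GK K)) := MulAction.toPerm χ

omit [CharZero 𝕜] [IsAlgClosed 𝕜] in
theorem pr_pow (χ : GK K →* 𝕜ˣ) (k : ℕ) (x : X 𝕜 (GK K)) : (pr χ ^ k) x = χ ^ k • x := by
  induction k with
  | zero =>
    have h0 : χ ^ 0 = 1 := pow_zero χ
    rw [h0, X_one_smul]
    rfl
  | succ k ih =>
    have h0 : χ ^ (k + 1) = χ * χ ^ k := pow_succ' χ k
    rw [pow_succ', Equiv.Perm.mul_apply, ih, h0, X_mul_smul]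
    rfl

/-- the sum of the twists -/
noncomputable def NX (χ : GK K →* 𝕜ˣ) (F : X 𝕜 (GK K) →₀ ℕ) : X 𝕜 (GK K) →₀ ℕ :=
  ∑ k ∈ Finset.range (orderOf χ), tw ((χ ^ k)⁻¹) F

omit [CharZero 𝕜] [IsAlgClosed 𝕜] in
theorem NX_coe (χ : GK K →* 𝕜ˣ) (F : X 𝕜 (GK K) →₀ ℕ) :
    ⇑(NX χ F) = nm (pr χ) (orderOf χ) F := by
  funext x
  unfold NX nm
  rw [Finsupp.finsetSum_apply]
  refine Finset.sum_congr rfl fun k _ => ?_
  rw [Pool.Agent.Q15.GR.tw_apply, pr_pow]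
  congr 1

omit [IsAlgClosed 𝕜] in
theorem Ph_NX (χ : GK K →* 𝕜ˣ) (F : X 𝕜 (GK K) →₀ ℕ) (g : GK K) : Ph (NX χ F) g =
    (∑ k ∈ Finset.range (orderOf χ), (((χ g)⁻¹ : 𝕜ˣ) : 𝕜) ^ k) * Ph F g := by
  have key : ∀ s : Finset ℕ, Ph (∑ k ∈ s, tw ((χ ^ k)⁻¹) F) g =
      (∑ k ∈ s, (((χ g)⁻¹ : 𝕜ˣ) : 𝕜) ^ k) * Ph F g := by
    intro s
    classical
    induction s using Finset.induction_on with
    | empty =>
      rw [Finset.sum_empty, Finset.sum_empty, zero_mul, map_zero]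
      rfl
    | insert i s hi ih =>
      rw [Finset.sum_insert hi, Finset.sum_insert hi, add_mul, ← ih, map_add, Pi.add_apply, Ph_tw]
      have h1 : ((χ ^ i)⁻¹) g = ((χ g)⁻¹) ^ i := by
        rw [MonoidHom.inv_apply, MonoidHom.pow_apply, inv_pow]
      rw [h1, Units.val_pow_eq_pow_val]
  exact key _

omit [IsAlgClosed 𝕜] in
theorem NX_Ph {χ : GK K →* 𝕜ˣ} (F : X 𝕜 (GK K) →₀ ℕ) (g : GK K) :
    (χ g = 1 → Ph (NX χ F) g = (orderOf χ : 𝕜) * Ph F g) ∧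
      (χ g ≠ 1 → Ph (NX χ F) g = 0) := by
  rw [Ph_NX]
  constructor
  · intro h
    rw [h, inv_one, Units.val_one]
    simp
  · intro h
    have h1 : (((χ g)⁻¹ : 𝕜ˣ) : 𝕜) ≠ 1 := fun e => h (inv_eq_one.1 (Units.ext e))
    have h2 := geom_sum_mul (((χ g)⁻¹ : 𝕜ˣ) : 𝕜) (orderOf χ)
    have h3 : χ g ^ orderOf χ = 1 := by
      have h1 : χ ^ orderOf χ = 1 := pow_orderOf_eq_one χ
      rw [← MonoidHom.pow_apply, h1, MonoidHom.one_apply]
    rw [← Units.val_pow_eq_pow_val, inv_pow, h3, inv_one, Units.val_one, sub_self] at h2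
    rw [(mul_eq_zero.1 h2).resolve_right (sub_ne_zero.2 h1), zero_mul]

omit [IsAlgClosed 𝕜] in
theorem NX_iff {χ : GK K →* 𝕜ˣ} (hχ : IsCyc χ) (F F' : X 𝕜 (GK K) →₀ ℕ) :
    NX χ F = NX χ F' ↔ ∀ g, χ g = 1 → Ph F g = Ph F' g := by
  have hp : (orderOf χ : 𝕜) ≠ 0 := by exact_mod_cast hχ.2.ne_zero
  constructor
  · intro h g hg
    have h1 := (NX_Ph F g).1 hg
    rw [h, (NX_Ph F' g).1 hg] at h1
    exact (mul_left_cancel₀ hp h1).symm
  · intro h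
    apply Ph_inj
    funext g
    by_cases hg : χ g = 1
    · rw [(NX_Ph F g).1 hg, (NX_Ph F' g).1 hg, h g hg]
    · rw [(NX_Ph F g).2 hg, (NX_Ph F' g).2 hg]

omit [IsAlgClosed 𝕜] in
/-- compatibility -/
theorem NX_comm {χ χ' : GK K →* 𝕜ˣ} {F F' : X 𝕜 (GK K) →₀ ℕ}
    (h : ∀ g, χ g = 1 → χ' g = 1 → Ph F g = Ph F' g) : NX χ' (NX χ F) = NX χ (NX χ' F') := by
  apply Ph_inj
  funext g
  by_cases h1 : χ g = 1
  · by_cases h2 : χ' g = 1
    · rw [(NX_Ph _ g).1 h2, (NX_Ph F g).1 h1, (NX_Ph _ g).1 h1, (NX_Ph F' g).1 h2, h g h1 h2]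
      ring
    · rw [(NX_Ph _ g).2 h2, (NX_Ph _ g).1 h1, (NX_Ph F' g).2 h2, mul_zero]
  · by_cases h2 : χ' g = 1
    · rw [(NX_Ph _ g).1 h2, (NX_Ph F g).2 h1, (NX_Ph _ g).2 h1, mul_zero]
    · rw [(NX_Ph _ g).2 h2, (NX_Ph _ g).2 h1]

/-- cyclic extensions of pairwise different prime degrees -/
def PrimeDegs (I : Finset (GK K →* 𝕜ˣ)) : Prop :=
  (∀ χ ∈ I, IsOpen (χ.ker : Set (GK K)) ∧ (orderOf χ).Prime) ∧
    Set.InjOn orderOf (I : Set (GK K →* 𝕜ˣ))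

omit [CharZero 𝕜] [IsAlgClosed 𝕜] in
theorem famX {I : Finset (GK K →* 𝕜ˣ)} (hI : PrimeDegs I) :
    Fam (ι := {χ // χ ∈ I}) (fun χ => pr χ.1) (fun χ => orderOf χ.1) := by
  refine ⟨?_, ?_, ?_, ?_⟩
  · intro χ χ'
    ext1 x
    rw [Equiv.Perm.mul_apply, Equiv.Perm.mul_apply]
    change χ.1 • (χ'.1 • x) = χ'.1 • (χ.1 • x)
    rw [← X_mul_smul, ← X_mul_smul]
    congr 1
    exact mul_comm χ.1 χ'.1
  · intro χ
    ext1 x
    have h1 : χ.1 ^ orderOf χ.1 = 1 := pow_orderOf_eq_one _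
    rw [pr_pow, h1, X_one_smul]
    rfl
  · intro χ
    exact (hI.1 χ χ.2).2.pos
  · intro χ χ' hne
    rw [Nat.coprime_primes (hI.1 χ χ.2).2 (hI.1 χ' χ'.2).2]
    intro e
    exact hne (Subtype.ext (hI.2 χ.2 χ'.2 e))

omit [CharZero 𝕜] [IsAlgClosed 𝕜] in
theorem mass_dg (F : X 𝕜 (GK K) →₀ ℕ) : mass (⇑F) ≤ dg F := by
  unfold mass dg
  rw [tsum_eq_sum (s := F.support)]
  · rw [Finsupp.sum, ← Nat.cast_sum]
    have : ∑ x ∈ F.support, F x ≤ ∑ x ∈ F.support, F x * dm x :=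
      Finset.sum_le_sum fun x _ => Nat.le_mul_of_pos_right _ (dm_pos x)
    exact_mod_cast this
  · intro x hx
    rw [Finsupp.notMem_support_iff.1 hx, Nat.cast_zero]

/-- uniqueness -/
theorem uniq {I : Finset (GK K →* 𝕜ˣ)} (hI : PrimeDegs I) {n : ℕ} (hn : 2 * n < 2 ^ I.card)
    {R R' : Representation 𝕜 (GK K) (Fin n → 𝕜)} (hR : R.IsSemisimpleRepresentation)
    (hR' : R'.IsSemisimpleRepresentation)
    (h : ∀ χ ∈ I, Nonempty (Representation.Equiv (res χ.ker R') (res χ.ker R))) :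
    Nonempty (Representation.Equiv R' R) := by
  classical
  refine equiv_of_char R' R hR' hR ?_
  obtain ⟨F, hF⟩ := (isSs_char R hR).exists_Ph
  obtain ⟨F', hF'⟩ := (isSs_char R' hR').exists_Ph
  have hd := dg_eq hF
  have hd' := dg_eq hF'
  rw [finrank_fin_fun] at hd hd'
  have h1 : F' = F := by
    apply DFunLike.coe_injective
    refine (famX hI).unique2 (J := Finset.univ) ?_ ?_
    · rw [Finset.card_univ, Fintype.card_coe]
      refine (add_le_add (mass_dg F') (mass_dg F)).trans_lt ?_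
      rw [hd, hd', ← two_mul]
      exact_mod_cast hn
    · intro χ _
      rw [← NX_coe, ← NX_coe]
      congr 1
      refine (NX_iff (hI.1 χ χ.2) F' F).2 fun g hg => ?_
      obtain ⟨e⟩ := h χ χ.2
      have h2 := Pool.Agent.Q15.GRG.char_equiv e (⟨g, hg⟩ : χ.1.ker)
      rw [res_char, res_char, hF, hF'] at h2
      exact h2
  rw [hF, hF', h1]

variable [TopologicalSpace 𝕜] [IsTopologicalRing 𝕜] [T2Space 𝕜]

/-- construction of the representation -/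
theorem build {n : ℕ} {I : Finset (GK K →* 𝕜ˣ)} (hI : PrimeDegs I) (hne : I.Nonempty)
    {ρ : ∀ χ : GK K →* 𝕜ˣ, Representation 𝕜 χ.ker (Fin n → 𝕜)}
    (hs : ∀ χ ∈ I, (ρ χ).IsSemisimpleRepresentation) (hc : ∀ χ ∈ I, Cts (ρ χ))
    {F : X 𝕜 (GK K) →₀ ℕ} (hF : ∀ χ ∈ I, ∀ h : χ.ker, Ph F (h : GK K) = (ρ χ).character h) :
    ∃ R : Representation 𝕜 (GK K) (Fin n → 𝕜), R.IsSemisimpleRepresentation ∧ Cts R ∧
      R.character = Ph F ∧ ∀ χ ∈ I, Nonempty (Representation.Equiv (res χ.ker R) (ρ χ)) := by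
  obtain ⟨χ₀, hχ₀⟩ := hne
  have hdg : dg F = n := by
    have h1 := hF χ₀ hχ₀ 1
    rw [Subgroup.coe_one, Ph_one, char_one, finrank_fin_fun] at h1
    exact_mod_cast h1
  obtain ⟨R, hR, hRc⟩ := exists_rep F hdg
  have hequiv : ∀ χ ∈ I, Nonempty (Representation.Equiv (res χ.ker R) (ρ χ)) := by
    intro χ hχ
    refine equiv_of_char _ _ (semi_res χ.ker hR) (hs χ hχ) ?_
    funext x
    rw [res_char, hRc]
    exact hF χ hχ x
  obtain ⟨e⟩ := hequiv χ₀ hχ₀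
  exact ⟨R, hR, cts_of_open R χ₀.ker (hI.1 χ₀ hχ₀).1 (cts_equiv e (hc χ₀ hχ₀)), hRc, hequiv⟩

/-- a function with finite support -/
theorem to_finsupp {χ : GK K →* 𝕜ˣ} (hχ : IsCyc χ) {g : X 𝕜 (GK K) → ℕ} {f : X 𝕜 (GK K) →₀ ℕ}
    (h : nm (pr χ) (orderOf χ) g = nm (pr χ) (orderOf χ) f) :
    ∃ F : X 𝕜 (GK K) →₀ ℕ, ⇑F = g := by
  have hgfin : (Function.support g).Finite := by
    refine (NX χ f).support.finite_toSet.subset ?_
    intro x hx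
    rw [Finset.mem_coe, Finsupp.mem_support_iff, NX_coe]
    have h2 := le_nm (pr χ) hχ.2.pos g x
    have h3 := congrFun h x
    rw [Function.mem_support] at hx
    intro h4
    apply hx
    rw [h3, h4] at h2
    exact Nat.le_zero.1 h2
  exact ⟨Finsupp.ofSupportFinite g hgfin, rfl⟩

/-- existence from the places which split -/
theorem split_exists {n : ℕ} {I : Finset (GK K →* 𝕜ˣ)} (hI : PrimeDegs I)
    (hcard : I.card = 2 ∨ n + 2 ≤ I.card) {D : HeightOneSpectrum (𝓞 K) → Multiset 𝕜}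
    {ρ : ∀ χ : GK K →* 𝕜ˣ, Representation 𝕜 χ.ker (Fin n → 𝕜)}
    (hs : ∀ χ ∈ I, (ρ χ).IsSemisimpleRepresentation) (hc : ∀ χ ∈ I, Cts (ρ χ))
    (hD : ∀ χ ∈ I, {v | ¬ SplAt (ρ χ) v (D v)}.Finite) :
    ∃ R : Representation 𝕜 (GK K) (Fin n → 𝕜), R.IsSemisimpleRepresentation ∧ Cts R ∧
      ∀ χ ∈ I, Nonempty (Representation.Equiv (res χ.ker R) (ρ χ)) := by
  classical
  have hne : I.Nonempty := Finset.card_pos.1 (by omega)
  have hext : ∀ χ : GK K →* 𝕜ˣ, ∃ F : X 𝕜 (GK K) →₀ ℕ, χ ∈ I →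
      (∀ h : χ.ker, Ph F (h : GK K) = (ρ χ).character h) ∧ dg F = n := by
    intro χ
    by_cases hχ : χ ∈ I
    · obtain ⟨F, R, -, -, -, h4, h5, -⟩ := exists_ext (hI.1 χ hχ) (hs χ hχ) (hc χ hχ) (hD χ hχ)
      exact ⟨F, fun _ => ⟨h4, h5⟩⟩
    · exact ⟨0, fun h => absurd h hχ⟩
  choose G hG using hext
  have hcomp : ∀ χ ∈ I, ∀ χ' ∈ I, NX χ' (NX χ (G χ)) = NX χ (NX χ' (G χ')) := by
    intro χ hχ χ' hχ'
    apply NX_comm
    intro g hg hg'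
    have h1 := (hG χ hχ).1 ⟨g, hg⟩
    have h2 := (hG χ' hχ').1 ⟨g, hg'⟩
    change Ph (G χ) g = _ at h1
    change Ph (G χ') g = _ at h2
    rw [h1, h2]
    exact cons (hI.1 χ hχ).1 (hI.1 χ' hχ').1 (hc χ hχ) (hc χ' hχ') (hD χ hχ) (hD χ' hχ') 1 g g
      (by group) hg hg'
  have hmass : ∀ χ ∈ I, mass (⇑(G χ)) ≤ (n : ℝ≥0∞) := by
    intro χ hχ
    rw [← (hG χ hχ).2]
    exact mass_dg _
  obtain ⟨F, hF⟩ : ∃ F : X 𝕜 (GK K) →₀ ℕ, ∀ χ ∈ I, NX χ F = NX χ (G χ) := by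
    rcases hcard with h2 | h2
    · obtain ⟨ψ, η, hψη, hIe⟩ := Finset.card_eq_two.1 h2
      have hψ : ψ ∈ I := by
        rw [hIe]
        exact Finset.mem_insert_self _ _
      have hη : η ∈ I := by
        rw [hIe]
        exact Finset.mem_insert_of_mem (Finset.mem_singleton_self _)
      have hf := famX hI
      obtain ⟨g, hg1, hg2⟩ := pair (hf.comm ⟨ψ, hψ⟩ ⟨η, hη⟩) (hf.pow ⟨ψ, hψ⟩) (hf.pow ⟨η, hη⟩)
        (hf.pos ⟨ψ, hψ⟩) (hf.pos ⟨η, hη⟩) n (⇑(G ψ)) (⇑(G η)) (hmass ψ hψ) (by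
          have h3 : ⇑(NX η (NX ψ (G ψ))) = ⇑(NX ψ (NX η (G η))) := by
            rw [hcomp ψ hψ η hη]
          rw [NX_coe, NX_coe, NX_coe, NX_coe] at h3
          exact h3)
      obtain ⟨F, hF⟩ := to_finsupp (hI.1 ψ hψ) hg1
      refine ⟨F, fun χ hχ => ?_⟩
      apply DFunLike.coe_injective
      rw [NX_coe, NX_coe, hF]
      rw [hIe, Finset.mem_insert, Finset.mem_singleton] at hχ
      rcases hχ with rfl | rfl
      · exact hg1
      · exact hg2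
    · obtain ⟨g, hg⟩ := (famX hI).exists_common n Finset.univ
        (by rw [Finset.card_univ, Fintype.card_coe]; exact h2) (fun χ => ⇑(G χ))
        (fun χ _ => hmass χ χ.2) (by
          intro χ _ χ' _
          have h3 : ⇑(NX χ'.1 (NX χ.1 (G χ))) = ⇑(NX χ.1 (NX χ'.1 (G χ'))) := by
            rw [hcomp χ χ.2 χ' χ'.2]
          rw [NX_coe, NX_coe, NX_coe, NX_coe] at h3
          exact h3)
      obtain ⟨χ₀, hχ₀⟩ := hne
      obtain ⟨F, hF⟩ := to_finsupp (hI.1 χ₀ hχ₀) (hg ⟨χ₀, hχ₀⟩ (Finset.mem_univ _))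
      refine ⟨F, fun χ hχ => ?_⟩
      apply DFunLike.coe_injective
      rw [NX_coe, NX_coe, hF]
      exact hg ⟨χ, hχ⟩ (Finset.mem_univ _)
  obtain ⟨R, h1, h2, -, h4⟩ := build hI hne hs hc (F := F) (fun χ hχ h => by
    rw [(NX_iff (hI.1 χ hχ) F (G χ)).1 (hF χ hχ) h h.2]
    exact (hG χ hχ).1 h)
  exact ⟨R, h1, h2, h4⟩

end Pool.Agent.Q227.AG
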