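import Pool.Agent.Q227.AG.G5
import Pool.Agent.Q227.AK.A5

/-!
# Patching from all places
-/

set_option autoImplicit false

namespace Pool.Agent.Q227.AG

open NumberField IsDedekindDomain
open Pool.Agent.W401.Cheb Pool.Agent.Q227.AK Pool.Agent.Q227.AK.AutRep
open Pool.Agent.Q15.GR Representation Module

variable {K : Type} [Field K] [NumberField K] {𝕜 : Type} [Field 𝕜] [CharZero 𝕜] [IsAlgClosed 𝕜]

/-- unramified at `v` with given eigenvalues of the geometric Frobenius elements -/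
def URat {n : ℕ} (R : Representation 𝕜 (GK K) (Fin n → 𝕜)) (v : HeightOneSpectrum (𝓞 K))
    (M : Multiset 𝕜) : Prop :=
  (∀ σ, IsInert v σ → R σ = 1) ∧ ∀ σ, IsFrob v σ → (R σ⁻¹).charpoly.roots = M

theorem pow_ker (χ : GK K →* 𝕜ˣ) (τ : GK K) : τ ^ orderOf (χ τ) ∈ χ.ker := by
  rw [MonoidHom.mem_ker, map_pow, pow_orderOf_eq_one]

theorem roots_pow_frob {n : ℕ} (R : Representation 𝕜 (GK K) (Fin n → 𝕜)) (τ : GK K) (m : ℕ) :
    (R (τ ^ m)⁻¹).charpoly.roots = pw m (R τ⁻¹).charpoly.roots := by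
  rw [← inv_pow, map_pow]
  exact Pool.Agent.Q227.CD.roots_pow (R τ⁻¹) m

/-- information at `v` from an extension -/
theorem at_pow {n : ℕ} {χ : GK K →* 𝕜ˣ} {ρ : Representation 𝕜 χ.ker (Fin n → 𝕜)}
    {R : Representation 𝕜 (GK K) (Fin n → 𝕜)} (e : Representation.Equiv (res χ.ker R) ρ)
    {v : HeightOneSpectrum (𝓞 K)} {M : Multiset 𝕜} (h : At ρ v M) :
    (∀ σ, IsInert v σ → R σ = 1) ∧ ∀ τ, IsFrob v τ →
      pw (orderOf (χ τ)) (R τ⁻¹).charpoly.roots = pw (orderOf (χ τ)) M := by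
  refine ⟨fun σ hσ => ?_, fun τ hτ => ?_⟩
  · have h1 : σ ∈ χ.ker := h.1 σ hσ
    exact one_of_equiv e (g := (⟨σ, h1⟩ : χ.ker)) (h.2.1 ⟨σ, h1⟩ hσ)
  · have h1 := h.2.2 τ hτ ⟨_, pow_ker χ τ⟩ rfl
    have h2 := eig_equiv e (⟨_, pow_ker χ τ⟩ : χ.ker)⁻¹
    unfold eig at h2
    rw [h1] at h2
    rw [← roots_pow_frob]
    exact h2.symm

/-- conversely -/
theorem at_of_pow {n : ℕ} {χ : GK K →* 𝕜ˣ} {R : Representation 𝕜 (GK K) (Fin n → 𝕜)}
    {v : HeightOneSpectrum (𝓞 K)} {M : Multiset 𝕜} (hχ : ∀ σ, IsInert v σ → χ σ = 1)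
    (h1 : ∀ σ, IsInert v σ → R σ = 1)
    (h2 : ∀ τ, IsFrob v τ → pw (orderOf (χ τ)) (R τ⁻¹).charpoly.roots = pw (orderOf (χ τ)) M) :
    At (res χ.ker R) v M := by
  refine ⟨hχ, fun σ hσ => h1 σ hσ, fun τ hτ σ hσ => ?_⟩
  change (R ((σ⁻¹ : χ.ker) : GK K)).charpoly.roots = _
  rw [Subgroup.coe_inv, hσ, roots_pow_frob, h2 τ hτ]
  rfl

variable [TopologicalSpace 𝕜] [IsTopologicalRing 𝕜] [T2Space 𝕜]

/-- local data and parameters -/
theorem sat_iff {n : ℕ} {R : Representation 𝕜 (GK K) (Fin n → 𝕜)}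
    (hR : R.IsSemisimpleRepresentation) {F : (GT K 𝕜).X →₀ ℕ} (hF : R.character = Ph (toX F))
    (v : HeightOneSpectrum (𝓞 K)) (M : Multiset 𝕜) :
    (GT K 𝕜).sat F v = some M ↔ URat R v M := by
  constructor
  · intro h
    have h0 : (GT K 𝕜).sat F v ≠ none := by
      rw [h]
      simp
    refine ⟨fun σ hσ => ?_, fun σ hσ => ?_⟩
    · refine one_of_const hR hF fun x hx => ?_
      obtain ⟨y, rfl, hy⟩ := toX_supp hx
      exact sat_un.1 h0 y hy σ hσ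
    · have h1 := eig_Ph hR hF σ⁻¹
      rw [es_frob h hσ] at h1
      exact h1
  · intro h
    rw [sat_frob (fun x hx σ hσ => one_const hR hF (x := x.1)
      (by rw [toX_apply]; exact hx) (h.1 σ hσ)) (fr_spec v), ← eig_Ph hR hF]
    exact congrArg some (h.2 _ (fr_spec v))

/-- the element attached to a representation -/
theorem toF {n : ℕ} {D : HeightOneSpectrum (𝓞 K) → Multiset 𝕜} {χ : GK K →* 𝕜ˣ} (hχ : IsCyc χ)
    {ρ : Representation 𝕜 χ.ker (Fin n → 𝕜)} (hc : Cts ρ) (hD : {v | ¬ At ρ v (D v)}.Finite)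
    {R : Representation 𝕜 (GK K) (Fin n → 𝕜)} (hR : R.IsSemisimpleRepresentation)
    (e : Representation.Equiv (res χ.ker R) ρ) :
    ∃ F : (GT K 𝕜).X →₀ ℕ, R.character = Ph (toX F) ∧ (GT K 𝕜).rk F = n := by
  obtain ⟨m, hm⟩ := (isSs_char R hR).exists_Ph
  have hcR : Cts R := cts_of_open R χ.ker hχ.1 (cts_equiv e hc)
  obtain ⟨F, hF⟩ := exists_toX (m := m) (by
    intro x hx
    refine ⟨cts_const hR hcR hm hx, hD.subset ?_⟩
    intro v hv hat
    apply hv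
    intro σ hσ
    exact one_const hR hm hx ((at_pow e hat).1 σ hσ))
  refine ⟨F, by rw [hF]; exact hm, ?_⟩
  rw [rk_toX, hF]
  have hd := dg_eq hm
  rw [finrank_fin_fun] at hd
  exact hd

/-- local compatibility in the two languages -/
theorem loc_iff {n : ℕ} {χ : GK K →* 𝕜ˣ} (hχ : IsCyc χ) {R : Representation 𝕜 (GK K) (Fin n → 𝕜)}
    (hR : R.IsSemisimpleRepresentation) {F : (GT K 𝕜).X →₀ ℕ} (hF : R.character = Ph (toX F))
    (v : HeightOneSpectrum (𝓞 K)) (M : Multiset 𝕜) :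
    Loc (up (GT K 𝕜)) χ ((up (GT K 𝕜)).bc χ F) M v ↔ At (res χ.ker R) v M := by
  constructor
  · intro h
    obtain ⟨a, M', ha, hM', hp⟩ := h.ex (up_known half) hχ
    have h1 := (sat_iff hR hF v M').1 hM'
    refine at_of_pow ha.1 h1.1 fun τ hτ => ?_
    rw [ha.2 τ hτ, h1.2 τ hτ, hp]
  · intro h
    obtain ⟨h1, h2⟩ := at_pow (Representation.Equiv.refl _) h
    obtain ⟨a, ha⟩ := exists_val h.1
    refine ⟨a, ha, ?_⟩
    have h3 : (GT K 𝕜).sat F v = some (R (fr v)⁻¹).charpoly.roots := by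
      refine (sat_iff hR hF v _).2 ⟨h1, fun σ hσ => ?_⟩
      exact eig_frob h1 hσ (fr_spec v)
    rw [(up_known half).bc_par χ hχ v a ha F]
    change ((GT K 𝕜).sat F v).map _ = _
    rw [h3, Option.map_some, Option.some_inj]
    have h4 := h2 (fr v) (fr_spec v)
    rwa [ha.2 _ (fr_spec v)] at h4

end Pool.Agent.Q227.AG
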