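import Pool.Agent.Q227.AG.G6

/-!
# Patching from all places: the theorems
-/

set_option autoImplicit false

namespace Pool.Agent.Q227.AG

open NumberField IsDedekindDomain
open Pool.Agent.W401.Cheb Pool.Agent.Q227.AK Pool.Agent.Q227.AK.AutRep
open Pool.Agent.Q15.GR Representation Module

variable {K : Type} [Field K] [NumberField K] {𝕜 : Type} [Field 𝕜] [CharZero 𝕜] [IsAlgClosed 𝕜]

theorem at_equiv {n : ℕ} {χ : GK K →* 𝕜ˣ} {ρ ρ' : Representation 𝕜 χ.ker (Fin n → 𝕜)}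
    (e : Representation.Equiv ρ ρ') {v : HeightOneSpectrum (𝓞 K)} {M : Multiset 𝕜}
    (h : At ρ' v M) : At ρ v M := by
  refine ⟨h.1, fun σ hσ => one_of_equiv e (h.2.1 σ hσ), fun τ hτ σ hσ => ?_⟩
  have h1 := eig_equiv e σ⁻¹
  unfold eig at h1
  rw [← h1]
  exact h.2.2 τ hτ σ hσ

theorem at_res {n : ℕ} {χ : GK K →* 𝕜ˣ} {R : Representation 𝕜 (GK K) (Fin n → 𝕜)}
    {v : HeightOneSpectrum (𝓞 K)} {M : Multiset 𝕜} (hχ : ∀ σ, IsInert v σ → χ σ = 1)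
    (h : URat R v M) : At (res χ.ker R) v M :=
  at_of_pow hχ h.1 fun τ hτ => by rw [h.2 τ hτ]

/-- a place which splits -/
theorem urat_of_split {n : ℕ} {χ : GK K →* 𝕜ˣ} {ρ : Representation 𝕜 χ.ker (Fin n → 𝕜)}
    {R : Representation 𝕜 (GK K) (Fin n → 𝕜)} (e : Representation.Equiv (res χ.ker R) ρ)
    {v : HeightOneSpectrum (𝓞 K)} {M : Multiset 𝕜} (h : SplAt ρ v M) (hs : Spl v χ) :
    URat R v M := by
  obtain ⟨h1, h2⟩ := h hs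
  refine ⟨fun σ hσ => ?_, fun σ hσ => ?_⟩
  · exact one_of_equiv e (g := (⟨σ, hs σ (Or.inl hσ)⟩ : χ.ker)) (h1 _ hσ)
  · have h3 := h2 ⟨σ, hs σ (Or.inr hσ)⟩ hσ
    have h4 := eig_equiv e (⟨σ, hs σ (Or.inr hσ)⟩ : χ.ker)⁻¹
    unfold eig at h4
    rw [h3] at h4
    exact h4.symm

theorem pow_val' (χ : GK K →* 𝕜ˣ) (g : GK K) : χ g ^ orderOf χ = 1 := by
  have h1 : χ ^ orderOf χ = 1 := pow_orderOf_eq_one χ
  rw [← MonoidHom.pow_apply, h1, MonoidHom.one_apply]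

/-- two extensions, locally -/
theorem urat_two {n : ℕ} {ψ η : GK K →* 𝕜ˣ} (hψ : IsCyc ψ) (hη : IsCyc η)
    (hne : orderOf ψ ≠ orderOf η) {ρ : Representation 𝕜 ψ.ker (Fin n → 𝕜)}
    {ρ' : Representation 𝕜 η.ker (Fin n → 𝕜)} {R : Representation 𝕜 (GK K) (Fin n → 𝕜)}
    (e : Representation.Equiv (res ψ.ker R) ρ) (e' : Representation.Equiv (res η.ker R) ρ')
    {v : HeightOneSpectrum (𝓞 K)} {M : Multiset 𝕜} (h : At ρ v M) (h' : At ρ' v M)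
    (hM : ∀ x ∈ M, ∀ y ∈ M, ¬ IsPrimitiveRoot (x / y) (orderOf ψ * orderOf η)) : URat R v M := by
  obtain ⟨h1, h2⟩ := at_pow e h
  obtain ⟨-, h3⟩ := at_pow e' h'
  refine ⟨h1, fun σ hσ => ?_⟩
  have h4 := h2 σ hσ
  have h5 := h3 σ hσ
  rcases (Nat.dvd_prime hψ.2).1 (orderOf_dvd_of_pow_eq_one (pow_val' ψ σ)) with h6 | h6
  · rw [h6, pw_one, pw_one] at h4
    exact h4
  · rcases (Nat.dvd_prime hη.2).1 (orderOf_dvd_of_pow_eq_one (pow_val' η σ)) with h7 | h7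
    · rw [h7, pw_one, pw_one] at h5
      exact h5
    · rw [h6] at h4
      rw [h7] at h5
      refine local_two hψ.2 hη.2 hne ?_ hM h4 h5
      intro h0
      have h8 : (0 : 𝕜) ^ orderOf ψ ∈ pw (orderOf ψ) M := Multiset.mem_map_of_mem _ h0
      rw [← h4] at h8
      obtain ⟨z, hz, hz0⟩ := Multiset.mem_map.1 h8
      rw [zero_pow hψ.2.ne_zero] at hz0
      rw [eq_zero_of_pow_eq_zero hz0] at hz
      exact eig_rep_ne R σ⁻¹ hz

variable [TopologicalSpace 𝕜] [IsTopologicalRing 𝕜] [T2Space 𝕜]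

/-- existence and local properties from all places -/
theorem all_exists {n : ℕ} {I : Finset (GK K →* 𝕜ˣ)} (hI : PrimeDegs I) (hn0 : 1 ≤ n)
    (hn : n ≤ I.card) (hn' : n < I.card ∨ 4 ≤ n) {D : HeightOneSpectrum (𝓞 K) → Multiset 𝕜}
    {ρ : ∀ χ : GK K →* 𝕜ˣ, Representation 𝕜 χ.ker (Fin n → 𝕜)}
    (hs : ∀ χ ∈ I, (ρ χ).IsSemisimpleRepresentation) (hc : ∀ χ ∈ I, Cts (ρ χ))
    (hD : ∀ χ ∈ I, {v | ¬ At (ρ χ) v (D v)}.Finite) :
    ∃ R : Representation 𝕜 (GK K) (Fin n → 𝕜), R.IsSemisimpleRepresentation ∧ Cts R ∧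
      (∀ χ ∈ I, Nonempty (Representation.Equiv (res χ.ker R) (ρ χ))) ∧
      {v | ¬ URat R v (D v)}.Finite ∧
      ∀ J ⊆ I, 2 * n < 2 ^ J.card → ∀ v, (∀ χ ∈ J, At (ρ χ) v (D v)) → URat R v (D v) := by
  classical
  have hne : I.Nonempty := Finset.card_pos.1 (by omega)
  have hDs : ∀ χ ∈ I, {v | ¬ SplAt (ρ χ) v (D v)}.Finite := fun χ hχ =>
    (hD χ hχ).subset fun v hv hat => hv hat.spl
  -- the elements over the extensions
  have hext : ∀ χ : GK K →* 𝕜ˣ, ∃ F : (GT K 𝕜).X →₀ ℕ, χ ∈ I →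
      (GT K 𝕜).rk F = n ∧ (∀ h : χ.ker, Ph (toX F) (h : GK K) = (ρ χ).character h) ∧
      ∀ v M, At (ρ χ) v M → Loc (up (GT K 𝕜)) χ ((up (GT K 𝕜)).bc χ F) M v := by
    intro χ
    by_cases hχ : χ ∈ I
    · obtain ⟨F, R, h1, -, h3, h4, -, ⟨e⟩⟩ := exists_ext (hI.1 χ hχ) (hs χ hχ) (hc χ hχ) (hDs χ hχ)
      obtain ⟨F', h5, h6⟩ := toF (hI.1 χ hχ) (hc χ hχ) (hD χ hχ) h1 e
      refine ⟨F', fun _ => ⟨h6, fun h => ?_, fun v M hat => ?_⟩⟩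
      · rw [← h5, h3]
        exact h4 h
      · exact (loc_iff (hI.1 χ hχ) h1 h5 v M).2 (at_equiv e hat)
    · exact ⟨0, fun h => absurd h hχ⟩
  choose G hG using hext
  obtain ⟨F, h1, h2, h3, h4⟩ := main2 (T := up (GT K 𝕜)) (up_known half) n hn0 I hI.1 hI.2 hn hn' D
    (fun χ => (up (GT K 𝕜)).bc χ (G χ)) (by
      intro χ hχ
      refine ⟨?_, (hD χ hχ).subset fun v hv hat => hv ((hG χ hχ).2.2 v _ hat)⟩
      rw [(up_known half).bc_rk χ (hI.1 χ hχ)]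
      exact (hG χ hχ).1)
  have hF := (h1 F).2 rfl
  obtain ⟨R, hR, hRc, hRF, he⟩ := build hI hne hs hc (F := toX F) (fun χ hχ h => by
    have h5 := (NF_iff_Ph (hI.1 χ hχ) F (G χ)).1 ((up_bc_iff χ F (G χ)).1 (hF χ hχ)) h h.2
    rw [h5]
    exact (hG χ hχ).2.1 h)
  refine ⟨R, hR, hRc, he, ?_, ?_⟩
  · refine h3.subset ?_
    intro v hv h5
    apply hv
    exact (sat_iff hR hRF v _).1 h5
  · intro J hJ hJn v hv
    exact (sat_iff hR hRF v _).1 (h4 J hJ hJn v fun χ hχ => (hG χ (hJ hχ)).2.2 v _ (hv χ hχ))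

end Pool.Agent.Q227.AG
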