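import Pool.Agent.Q227.AG.G7

/-!
# Characters: examples
-/

set_option autoImplicit false

namespace Pool.Agent.Q227.AG

open NumberField IsDedekindDomain
open Pool.Agent.W401.Cheb Pool.Agent.Q227.AK Pool.Agent.Q227.AK.AutRep
open Pool.Agent.Q15.GR Representation Module

section

variable {k : Type} [Field k] {Γ : Type} [Group Γ]

/-- the submodules are the subrepresentations of a trivial representation -/
def trivIso {V : Type} [AddCommGroup V] [Module k V] :
    Submodule k V ≃o Subrepresentation (1 : Representation k Γ V) where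
  toFun U := ⟨U, fun _ _ hv => hv⟩
  invFun U := U.toSubmodule
  left_inv _ := rfl
  right_inv _ := rfl
  map_rel_iff' := Iff.rfl

theorem irr_one : (1 : Representation k Γ (Fin 1 → k)).IsIrreducible := by
  have h1 : IsSimpleModule k (Fin 1 → k) :=
    isSimpleModule_iff_finrank_eq_one.2 (finrank_fin_fun _)
  exact (trivIso (k := k) (Γ := Γ) (V := Fin 1 → k)).isSimpleOrder_iff.1 h1.1

theorem char_one' (g : Γ) : (1 : Representation k Γ (Fin 1 → k)).character g = 1 := by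
  change LinearMap.trace k (Fin 1 → k) 1 = 1
  rw [LinearMap.trace_one, finrank_fin_fun, Nat.cast_one]

variable (k Γ) in
/-- the trivial character -/
noncomputable def oneX : X k Γ := ⟨fun _ => 1, 1, 1, irr_one, funext char_one'⟩

theorem oneX_apply (g : Γ) : ((oneX k Γ : X k Γ) : Γ → k) g = 1 := rfl

variable [CharZero k] [IsAlgClosed k]

theorem dm_oneX : dm (oneX k Γ) = 1 := by
  have h1 := X_one (oneX k Γ)
  rw [oneX_apply] at h1
  exact_mod_cast h1.symm

theorem rp_oneX (g : Γ) : rp (oneX k Γ) g = 1 := by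
  obtain ⟨e⟩ := equiv_of_irr (rp (oneX k Γ)) (1 : Representation k Γ (Fin 1 → k)) (rp_irr _)
    irr_one (by
      rw [rp_char]
      funext g
      rw [char_one']
      rfl)
  exact one_of_equiv e rfl

theorem ei_oneX (g : Γ) : ei (oneX k Γ) g = {1} := by
  unfold ei
  have h1 : Multiset.card (eig (rp (oneX k Γ) g)) = 1 := by
    rw [card_eig, finrank_fin_fun, dm_oneX]
  obtain ⟨a, ha⟩ := Multiset.card_eq_one.1 h1
  have h2 : (eig (rp (oneX k Γ) g)).sum = 1 := by
    rw [sum_eig]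
    exact congrFun (rp_char (oneX k Γ)) g
  rw [ha, Multiset.sum_singleton] at h2
  rw [ha, h2]

end

variable {K : Type} [Field K] [NumberField K] {𝕜 : Type} [Field 𝕜] [CharZero 𝕜] [IsAlgClosed 𝕜]

section sums

/-- the product of the characters in a set -/
noncomputable def cS (S : Finset (GK K →* 𝕜ˣ)) : GK K →* 𝕜ˣ := ∏ χ ∈ S, χ

theorem cS_apply (S : Finset (GK K →* 𝕜ˣ)) (g : GK K) :
    ((cS S g : 𝕜ˣ) : 𝕜) = ∏ χ ∈ S, ((χ g : 𝕜ˣ) : 𝕜) := by
  have h1 : cS S g = MonoidHom.eval g (∏ χ ∈ S, χ) := rfl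
  rw [h1, map_prod, Units.coe_prod]
  rfl

theorem cS_open {S : Finset (GK K →* 𝕜ˣ)} (h : ∀ χ ∈ S, IsOpen (χ.ker : Set (GK K))) :
    IsOpen ((cS S).ker : Set (GK K)) := by
  classical
  unfold cS
  induction S using Finset.induction_on with
  | empty =>
    rw [Finset.prod_empty]
    exact open_one
  | insert χ S hχ ih =>
    rw [Finset.prod_insert hχ]
    exact open_mul (h χ (Finset.mem_insert_self _ _))
      (ih fun ψ hψ => h ψ (Finset.mem_insert_of_mem hψ))

/-- the sum of the characters `cS S` over a collection of sets -/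
noncomputable def FS (C : Finset (Finset (GK K →* 𝕜ˣ))) : X 𝕜 (GK K) →₀ ℕ :=
  ∑ S ∈ C, Finsupp.single (cS S • oneX 𝕜 (GK K)) 1

theorem Ph_FS (C : Finset (Finset (GK K →* 𝕜ˣ))) (g : GK K) :
    Ph (FS C) g = ∑ S ∈ C, ∏ χ ∈ S, ((χ g : 𝕜ˣ) : 𝕜) := by
  unfold FS
  rw [map_sum, Finset.sum_apply]
  refine Finset.sum_congr rfl fun S _ => ?_
  rw [Ph_single, one_smul, X_smul, oneX_apply, mul_one, cS_apply]

theorem dg_FS (C : Finset (Finset (GK K →* 𝕜ˣ))) : dg (FS C) = C.card := by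
  have h1 := Ph_one (FS C)
  rw [Ph_FS] at h1
  have h2 : ∑ S ∈ C, ∏ χ ∈ S, (((χ : GK K →* 𝕜ˣ) 1 : 𝕜ˣ) : 𝕜) = C.card := by
    rw [Finset.sum_congr rfl fun S _ => Finset.prod_congr rfl fun χ _ => by
      rw [map_one, Units.val_one]]
    simp
  rw [h2] at h1
  exact_mod_cast h1.symm

open scoped Classical in
/-- the subsets of even and odd cardinality -/
noncomputable def ev (I : Finset (GK K →* 𝕜ˣ)) (b : ℕ) : Finset (Finset (GK K →* 𝕜ˣ)) :=
  I.powerset.filter fun S => S.card % 2 = b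

theorem Ph_diff (I : Finset (GK K →* 𝕜ˣ)) (g : GK K) :
    Ph (FS (ev I 0)) g - Ph (FS (ev I 1)) g = ∏ χ ∈ I, (1 - ((χ g : 𝕜ˣ) : 𝕜)) := by
  classical
  have h1 : ∏ χ ∈ I, (1 - ((χ g : 𝕜ˣ) : 𝕜)) =
      ∑ S ∈ I.powerset, (-1) ^ S.card * ∏ χ ∈ S, ((χ g : 𝕜ˣ) : 𝕜) := by
    have h2 : ∏ χ ∈ I, (1 - ((χ g : 𝕜ˣ) : 𝕜)) = ∏ χ ∈ I, (-((χ g : 𝕜ˣ) : 𝕜) + 1) :=
      Finset.prod_congr rfl fun χ _ => by ring
    rw [h2, Finset.prod_add]
    refine Finset.sum_congr rfl fun S _ => ?_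
    rw [Finset.prod_const_one, mul_one, Finset.prod_neg]
  rw [h1, Ph_FS, Ph_FS]
  unfold ev
  rw [← Finset.sum_filter_add_sum_filter_not I.powerset (fun S => S.card % 2 = 0)
    (fun S => (-1) ^ S.card * ∏ χ ∈ S, ((χ g : 𝕜ˣ) : 𝕜)), sub_eq_add_neg]
  congr 1
  · refine Finset.sum_congr rfl fun S hS => ?_
    rw [Finset.mem_filter] at hS
    rw [(Nat.even_iff.2 hS.2).neg_one_pow, one_mul]
  · rw [← Finset.sum_neg_distrib]
    refine Finset.sum_congr ?_ fun S hS => ?_
    · ext S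
      rw [Finset.mem_filter, Finset.mem_filter]
      constructor
      · rintro ⟨h2, h3⟩
        exact ⟨h2, by omega⟩
      · rintro ⟨h2, h3⟩
        exact ⟨h2, by omega⟩
    · rw [Finset.mem_filter] at hS
      have h3 : S.card % 2 = 1 := by
        have := hS.2
        omega
      rw [(Nat.odd_iff.2 h3).neg_one_pow]
      ring

theorem card_ev {I : Finset (GK K →* 𝕜ˣ)} (hI : I.Nonempty) :
    (ev I 0).card = (ev I 1).card ∧ 2 * (ev I 0).card = 2 ^ I.card := by
  classical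
  have h1 := Ph_diff I 1
  rw [Ph_one, Ph_one, dg_FS, dg_FS] at h1
  obtain ⟨χ₀, hχ₀⟩ := hI
  rw [Finset.prod_eq_zero hχ₀ (by rw [map_one, Units.val_one, sub_self]), sub_eq_zero] at h1
  have h2 : (ev I 0).card = (ev I 1).card := by exact_mod_cast h1
  refine ⟨h2, ?_⟩
  have h3 : (ev I 0).card + (ev I 1).card = 2 ^ I.card := by
    rw [← Finset.card_powerset]
    unfold ev
    rw [← Finset.card_filter_add_card_filter_not (s := I.powerset) (fun S => S.card % 2 = 0)]
    congr 2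
    ext S
    rw [Finset.mem_filter, Finset.mem_filter]
    constructor
    · rintro ⟨h2, h3⟩
      exact ⟨h2, by omega⟩
    · rintro ⟨h2, h3⟩
      exact ⟨h2, by omega⟩
  omega

end sums

end Pool.Agent.Q227.AG
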