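import Pool.Agent.Q227.AG.G8

/-!
# Examples: the bounds are sharp
-/

set_option autoImplicit false

namespace Pool.Agent.Q227.AG

open NumberField IsDedekindDomain
open Pool.Agent.W401.Cheb Pool.Agent.Q227.AK Pool.Agent.Q227.AK.AutRep
open Pool.Agent.Q15.GR Representation Module

variable {K : Type} [Field K] [NumberField K] {𝕜 : Type} [Field 𝕜] [CharZero 𝕜] [IsAlgClosed 𝕜]
  [TopologicalSpace 𝕜] [IsTopologicalRing 𝕜] [T2Space 𝕜]

/-- there is a continuous representation -/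
def HasCts (F : X 𝕜 (GK K) →₀ ℕ) : Prop :=
  ∃ (n : ℕ) (R : Representation 𝕜 (GK K) (Fin n → 𝕜)), R.IsSemisimpleRepresentation ∧
    R.character = Ph F ∧ Cts R

theorem hasCts_zero : HasCts (0 : X 𝕜 (GK K) →₀ ℕ) := by
  obtain ⟨n, ρ, h1, h2⟩ := isSs_zero (k := 𝕜) (G := GK K)
  have h3 := congrFun h2 1
  rw [char_one, finrank_fin_fun, Pi.zero_apply] at h3
  have h4 : n = 0 := by exact_mod_cast h3
  subst h4
  refine ⟨0, ρ, h1, by rw [h2, map_zero], fun u => ?_⟩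
  have h5 : (fun g : GK K => ρ g u) = fun _ => 0 := funext fun g => Subsingleton.elim _ _
  rw [h5]
  exact continuous_const

theorem hasCts_add {F F' : X 𝕜 (GK K) →₀ ℕ} (h : HasCts F) (h' : HasCts F') :
    HasCts (F + F') := by
  obtain ⟨n, R, h1, h2, h3⟩ := h
  obtain ⟨n', R', h1', h2', h3'⟩ := h'
  refine ⟨finrank 𝕜 ((Fin n → 𝕜) × (Fin n' → 𝕜)), tp (R.prod R') (Module.finBasis 𝕜 _).equivFun,
    semi_congr (tpEquiv _ _) (semi_prod h1 h1'), ?_, fun u => ?_⟩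
  · rw [char_tp, char_prod, h2, h2', map_add]
  · set e := (Module.finBasis 𝕜 ((Fin n → 𝕜) × (Fin n' → 𝕜))).equivFun with he
    have h4 : ∀ g, tp (R.prod R') e g u =
        (e.toLinearMap ∘ₗ LinearMap.inl 𝕜 _ _) (R g (e.symm u).1) +
          (e.toLinearMap ∘ₗ LinearMap.inr 𝕜 _ _) (R' g (e.symm u).2) := by
      intro g
      change e (R g (e.symm u).1, R' g (e.symm u).2) =
        e (R g (e.symm u).1, 0) + e (0, R' g (e.symm u).2)
      rw [← map_add, Prod.mk_add_mk, add_zero, zero_add]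
    simp_rw [h4]
    exact ((lin_cont _).comp (h3 _)).add ((lin_cont _).comp (h3' _))

theorem hasCts (F : (GT K 𝕜).X →₀ ℕ) : HasCts (toX F) := by
  induction F using Finsupp.induction_linear with
  | zero =>
    unfold toX
    rw [Finsupp.mapDomain_zero]
    exact hasCts_zero
  | add F F' h h' =>
    unfold toX at h h' ⊢
    rw [Finsupp.mapDomain_add]
    exact hasCts_add h h'
  | single x a =>
    unfold toX
    rw [Finsupp.mapDomain_single]
    induction a with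
    | zero =>
      rw [Finsupp.single_zero]
      exact hasCts_zero
    | succ a ih =>
      rw [Finsupp.single_add]
      refine hasCts_add ih ⟨dm (ct x), rp (ct x), irr_semi (rp_irr _), ?_, x.2.1⟩
      rw [rp_char, Ph_single, one_smul]

/-- the representation with given multiplicities -/
theorem rep_toX (F : (GT K 𝕜).X →₀ ℕ) {n : ℕ} (hn : (GT K 𝕜).rk F = n) :
    ∃ R : Representation 𝕜 (GK K) (Fin n → 𝕜), R.IsSemisimpleRepresentation ∧ Cts R ∧
      R.character = Ph (toX F) ∧ {v | ∃ σ, IsInert v σ ∧ R σ ≠ 1}.Finite := by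
  rw [rk_toX] at hn
  obtain ⟨R, h1, h2⟩ := exists_rep (toX F) hn
  obtain ⟨n', R', h3, h4, h5⟩ := hasCts F
  obtain ⟨e⟩ := equiv_of_char R R' h1 h3 (h2.trans h4.symm)
  refine ⟨R, h1, cts_equiv e h5, h2, ((half (K := K) (𝕜 := 𝕜)).finite_none F).subset ?_⟩
  rintro v ⟨σ, hσ, hne⟩
  by_contra h6
  apply hne
  refine one_of_const h1 h2 fun x hx => ?_
  obtain ⟨y, rfl, hy⟩ := toX_supp hx
  exact sat_un.1 h6 y hy σ hσ

theorem good_one : Good (oneX 𝕜 (GK K)) := by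
  refine ⟨fun u => ?_, ?_⟩
  · have h1 : (fun g : GK K => rp (oneX 𝕜 (GK K)) g u) = fun _ => u := by
      funext g
      rw [rp_oneX]
      rfl
    rw [h1]
    exact continuous_const
  · refine Set.finite_empty.subset ?_
    intro v hv
    exact hv fun σ _ => rp_oneX σ

/-- the trivial representation -/
noncomputable def one : (GT K 𝕜).X := ⟨oneX 𝕜 (GK K), good_one⟩

theorem par_one (v : HeightOneSpectrum (𝓞 K)) : (GT K 𝕜).par one v = some {1} := by
  have h1 : Un (one : (GT K 𝕜).X).1 v := fun σ _ => rp_oneX σ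
  rw [GT_par_pos h1]
  exact congrArg some (ei_oneX _)

/-- restrictions do not determine a representation of large dimension -/
theorem not_unique {I : Finset (GK K →* 𝕜ˣ)} (hI : PrimeDegs I) (hne : I.Nonempty) {n : ℕ}
    (hn : 2 ^ I.card ≤ 2 * n) :
    ∃ R R' : Representation 𝕜 (GK K) (Fin n → 𝕜),
      (R.IsSemisimpleRepresentation ∧ R'.IsSemisimpleRepresentation ∧ Cts R ∧ Cts R' ∧
        {v | ∃ σ, IsInert v σ ∧ R σ ≠ 1}.Finite ∧ {v | ∃ σ, IsInert v σ ∧ R' σ ≠ 1}.Finite) ∧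
      (∀ χ ∈ I, Nonempty (Representation.Equiv (res χ.ker R) (res χ.ker R'))) ∧
      ¬ Nonempty (Representation.Equiv R R') := by
  classical
  obtain ⟨hc1, hc2⟩ := card_ev hne
  obtain ⟨m, hm⟩ : ∃ m, n = (ev I 0).card + m := ⟨n - (ev I 0).card, by omega⟩
  have hgood : ∀ b, ∀ x, (FS (ev I b) + Finsupp.single (oneX 𝕜 (GK K)) m) x ≠ 0 → Good x := by
    intro b x hx
    rw [Finsupp.add_apply] at hx
    by_cases h1 : FS (ev I b) x = 0
    · rw [h1, zero_add] at hx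
      have h2 : oneX 𝕜 (GK K) = x := by
        by_contra h3
        exact hx (Finsupp.single_eq_of_ne' h3)
      rw [← h2]
      exact good_one
    · unfold FS at h1
      rw [Finsupp.finsetSum_apply] at h1
      obtain ⟨S, hS, hS'⟩ := Finset.exists_ne_zero_of_sum_ne_zero h1
      have h2 : cS S • oneX 𝕜 (GK K) = x := by
        by_contra h3
        exact hS' (Finsupp.single_eq_of_ne' h3)
      rw [← h2]
      refine good_smul (cS_open fun χ hχ => (hI.1 χ ?_).1) good_one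
      unfold ev at hS
      exact Finset.mem_powerset.1 (Finset.mem_filter.1 hS).1 hχ
  obtain ⟨F, hF⟩ := exists_toX (hgood 0)
  obtain ⟨F', hF'⟩ := exists_toX (hgood 1)
  have hrk : (GT K 𝕜).rk F = n := by
    rw [rk_toX, hF, dg_add, dg_FS, dg_single, dm_oneX, mul_one, hm]
  have hrk' : (GT K 𝕜).rk F' = n := by
    rw [rk_toX, hF', dg_add, dg_FS, dg_single, dm_oneX, mul_one, ← hc1, hm]
  obtain ⟨R, h1, h2, h3, h4⟩ := rep_toX F hrk
  obtain ⟨R', h1', h2', h3', h4'⟩ := rep_toX F' hrk'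
  have hdiff : ∀ g, Ph (toX F) g - Ph (toX F') g = ∏ χ ∈ I, (1 - ((χ g : 𝕜ˣ) : 𝕜)) := by
    intro g
    rw [hF, hF', map_add, map_add, Pi.add_apply, Pi.add_apply, ← Ph_diff]
    ring
  refine ⟨R, R', ⟨h1, h1', h2, h2', h4, h4'⟩, fun χ hχ => ?_, ?_⟩
  · have hn : (χ.ker).Normal := inferInstance
    refine equiv_of_char _ _ (semi_res χ.ker h1) (semi_res χ.ker h1') ?_
    funext x
    rw [res_char, res_char, h3, h3']
    have h5 := hdiff x
    have h6 : χ (x : GK K) = 1 := x.2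
    rw [Finset.prod_eq_zero hχ (by rw [h6, Units.val_one, sub_self]), sub_eq_zero] at h5
    exact h5
  · rintro ⟨e⟩
    obtain ⟨v, -, hv⟩ := exists_gen hI.1 hI.2 (Set.finite_empty (α := HeightOneSpectrum (𝓞 K)))
    have h5 := Pool.Agent.Q15.GRG.char_equiv e (fr v)
    rw [h3, h3'] at h5
    have h6 := hdiff (fr v)
    rw [h5, sub_self] at h6
    obtain ⟨χ, hχ, h7⟩ := Finset.prod_eq_zero_iff.1 h6.symm
    obtain ⟨a, ha, ha1⟩ := hv χ hχ
    rw [sub_eq_zero, ha.2 _ (fr_spec v)] at h7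
    exact ha1 (Units.ext h7.symm)

/-- fewer than `n` extensions do not suffice -/
theorem not_exists {I : Finset (GK K →* 𝕜ˣ)} (hI : PrimeDegs I) (h3 : 3 ≤ I.card)
    {ψ : GK K →* 𝕜ˣ} (hψ : ψ ∈ I) (hψ2 : orderOf ψ = 2) {ω : GK K →* 𝕜ˣ}
    (hω : IsOpen (ω.ker : Set (GK K))) (hω2 : orderOf ω = 2) (hne : ω ≠ ψ) {n : ℕ}
    (hn : I.card < n) :
    ∃ (D : HeightOneSpectrum (𝓞 K) → Multiset 𝕜)
      (ρ : ∀ χ : GK K →* 𝕜ˣ, Representation 𝕜 χ.ker (Fin n → 𝕜)),
      (∀ χ ∈ I, (ρ χ).IsSemisimpleRepresentation ∧ Cts (ρ χ) ∧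
        {v | ¬ At (ρ χ) v (D v)}.Finite) ∧
      ¬ ∃ R : Representation 𝕜 (GK K) (Fin n → 𝕜), R.IsSemisimpleRepresentation ∧
        ∀ χ ∈ I, Nonempty (Representation.Equiv (res χ.ker R) (ρ χ)) := by
  classical
  have hωc : IsCyc ω := ⟨hω, by rw [hω2]; exact Nat.prime_two⟩
  obtain ⟨D, P, h1, h2⟩ := sharp (T := up (GT K 𝕜)) (up_known half) (one := one) par_one hI.1 hI.2
    h3 hψ hψ2 hωc hω2 hne hn
  have hex : ∀ χ : GK K →* 𝕜ˣ, ∃ (F : (GT K 𝕜).X →₀ ℕ)
      (R : Representation 𝕜 (GK K) (Fin n → 𝕜)), χ ∈ I → (up (GT K 𝕜)).bc χ F = P χ ∧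
        R.IsSemisimpleRepresentation ∧ Cts R ∧ R.character = Ph (toX F) := by
    intro χ
    by_cases hχ : χ ∈ I
    · obtain ⟨F, hF⟩ := (up_known half).bc_surj χ (hI.1 χ hχ) (P χ)
      have hrk : (GT K 𝕜).rk F = n := by
        rw [← (h1 χ hχ).1, ← hF, (up_known half).bc_rk χ (hI.1 χ hχ)]
        rfl
      obtain ⟨R, h4, h5, h6, -⟩ := rep_toX F hrk
      exact ⟨F, R, fun _ => ⟨hF, h4, h5, h6⟩⟩
    · exact ⟨0, 1, fun h => absurd h hχ⟩
  choose F R hFR using hex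
  refine ⟨D, fun χ => res χ.ker (R χ), fun χ hχ => ?_, ?_⟩
  · obtain ⟨h4, h5, h6, h7⟩ := hFR χ hχ
    have hn : (χ.ker).Normal := inferInstance
    refine ⟨semi_res χ.ker h5, fun u => (h6 u).comp continuous_subtype_val, ?_⟩
    refine (h1 χ hχ).2.subset fun v hv hloc => hv ?_
    refine (loc_iff (hI.1 χ hχ) h5 h7 v _).1 ?_
    rw [h4]
    exact hloc
  · rintro ⟨R', hR', he⟩
    obtain ⟨e⟩ := he ψ hψ
    obtain ⟨h4, h5, h6, h7⟩ := hFR ψ hψ
    obtain ⟨F', hF', -⟩ := toF (D := D) (hI.1 ψ hψ) (ρ := res ψ.ker (R ψ))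
      (fun u => (h6 u).comp continuous_subtype_val) (by
        refine (h1 ψ hψ).2.subset fun v hv hloc => hv ?_
        refine (loc_iff (hI.1 ψ hψ) h5 h7 v _).1 ?_
        rw [h4]
        exact hloc) hR' e
    apply h2
    refine ⟨F', fun χ hχ => ?_⟩
    obtain ⟨h4, h5, h6, h7⟩ := hFR χ hχ
    rw [← h4]
    refine (up_bc_iff χ F' (F χ)).2 ((NF_iff_Ph (hI.1 χ hχ) F' (F χ)).2 fun g hg => ?_)
    obtain ⟨e⟩ := he χ hχ
    have h8 := Pool.Agent.Q15.GRG.char_equiv e (⟨g, hg⟩ : χ.ker)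
    rw [res_char, res_char, hF', h7] at h8
    exact h8

end Pool.Agent.Q227.AG
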